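import Pool.Agent.Helper98.QR.IfaceB

/-!
# Block T: the number of quadrangulations with a general boundary, asymptotics
-/

namespace QR

noncomputable section

open Filter Topology

/-- number of maps divided by the number of labellings, with the vertex map for `P = 0` -/
def VN (N P : ℕ) : ℝ :=
  if P = 0 then (if N = 0 then 1 else 0)
  else (Nat.card {x // x ∈ GQ N P} : ℝ) / (4 * N + 2 * P).factorial

/-- `uu` with the same convention -/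
def UN (N P : ℕ) : ℝ := if P = 0 then (if N = 0 then 1 else 0) else uu N P

/-- number of forests of `P` plane trees with `N` edges -/
def FN (N P : ℕ) : ℕ := if N = 0 then 1 else if P = 0 then 0 else P * (2 * N + P - 1).choose (N - 1) / N

/-- T01: counting the codes (starting height `0`) -/
def ST_T01 : Prop :=
  ∀ N P, 1 ≤ P → (Nat.card {c : Code P // c.b 0 = 0 ∧ c.size = N} : ℝ) = (N + P + 1) * uu N P

/-- T02: Euler: number of vertices -/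
def ST_T02 : Prop :=
  ∀ (D : Type) [Finite D] (m : RMap D) (o : D) (N P : ℕ), 1 ≤ P → m.IsQuad o N P →
    Nat.card m.Vert = N + P + 1 ∧ Nat.card m.Face = N + 1

/-- T03: upper bound from the codes -/
def ST_T03 : Prop :=
  ∀ N P, 1 ≤ P → (Nat.card {x // x ∈ GQ N P} : ℝ) ≤ (4 * N + 2 * P).factorial * uu N P

/-- T04: joining two maps by a root edge: the root edge is a bridge. -/
def ST_T04 : Prop :=
  ∀ (D1 D2 : Type) [Finite D1] [Finite D2] (m1 : RMap D1) (m2 : RMap D2) (o1 : D1) (o2 : D2)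
    (N1 P1 N2 P2 : ℕ), 1 ≤ P1 → 1 ≤ P2 → m1.IsQuad o1 N1 P1 → m2.IsQuad o2 N2 P2 →
    ∃ m : RMap (D1 ⊕ D2 ⊕ Bool), m.IsQuad (Sum.inr (Sum.inr true)) (N1 + N2) (P1 + P2 + 1) ∧
      m.opp (Sum.inr (Sum.inr true)) = Sum.inr (Sum.inr false) ∧
      (∀ d, m.opp (Sum.inl d) = Sum.inl (m1.opp d)) ∧
      (∀ d, m.opp (Sum.inr (Sum.inl d)) = Sum.inr (Sum.inl (m2.opp d))) ∧
      m.rot (Sum.inr (Sum.inr true)) = Sum.inl o1 ∧
      m.rot (Sum.inr (Sum.inr false)) = Sum.inr (Sum.inl o2) ∧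
      (∀ d, m1.rot d ≠ o1 → m.rot (Sum.inl d) = Sum.inl (m1.rot d)) ∧
      (∀ d, m2.rot d ≠ o2 → m.rot (Sum.inr (Sum.inl d)) = Sum.inr (Sum.inl (m2.rot d)))

/-- T05: the same when one or both of the maps are the vertex map -/
def ST_T05 : Prop :=
  (∀ (D1 : Type) [Finite D1] (m1 : RMap D1) (o1 : D1) (N1 P1 : ℕ), 1 ≤ P1 → m1.IsQuad o1 N1 P1 →
    (∃ m : RMap (D1 ⊕ Bool), m.IsQuad (Sum.inr true) N1 (P1 + 1) ∧
      m.opp (Sum.inr true) = Sum.inr false ∧ (∀ d, m.opp (Sum.inl d) = Sum.inl (m1.opp d)) ∧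
      m.rot (Sum.inr true) = Sum.inl o1 ∧ m.rot (Sum.inr false) = Sum.inr false ∧
      (∀ d, m1.rot d ≠ o1 → m.rot (Sum.inl d) = Sum.inl (m1.rot d))) ∧
    (∃ m : RMap (D1 ⊕ Bool), m.IsQuad (Sum.inr true) N1 (P1 + 1) ∧
      m.opp (Sum.inr true) = Sum.inr false ∧ (∀ d, m.opp (Sum.inl d) = Sum.inl (m1.opp d)) ∧
      m.rot (Sum.inr false) = Sum.inl o1 ∧ m.rot (Sum.inr true) = Sum.inr true ∧
      (∀ d, m1.rot d ≠ o1 → m.rot (Sum.inl d) = Sum.inl (m1.rot d)))) ∧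
  (∃ m : RMap Bool, m.IsQuad true 0 1 ∧ m.rot true = true ∧ m.rot false = false ∧ m.opp true = false)

/-- T06: adding a root edge which cuts off a face of degree `4` -/
def ST_T06 : Prop :=
  ∀ (D1 : Type) [Finite D1] (m1 : RMap D1) (o1 : D1) (N1 P1 : ℕ), 2 ≤ P1 → m1.IsQuad o1 N1 P1 →
    ∃ m : RMap (D1 ⊕ Bool), m.IsQuad (Sum.inr true) (N1 + 1) (P1 - 1) ∧
      m.opp (Sum.inr true) = Sum.inr false ∧ (∀ d, m.opp (Sum.inl d) = Sum.inl (m1.opp d)) ∧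
      m.rot (Sum.inr true) = Sum.inl o1 ∧
      m.rot (Sum.inr false) = Sum.inl ((m1.face ^ 3) o1) ∧
      (∀ d, m1.rot d ≠ o1 → m1.rot d ≠ (m1.face ^ 3) o1 → m.rot (Sum.inl d) = Sum.inl (m1.rot d))

/-- T07: Tutte's inequality -/
def ST_T07 : Prop :=
  ∀ N P, 1 ≤ P →
    ∑ a ∈ Finset.range (N + 1), ∑ b ∈ Finset.range P, VN a b * VN (N - a) (P - 1 - b) +
      (if N = 0 then 0 else VN (N - 1) (P + 1)) ≤ VN N P

/-- T08: the closed formula satisfies Tutte's equation -/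
def ST_T08 : Prop :=
  ∀ N P, 1 ≤ P →
    ∑ a ∈ Finset.range (N + 1), ∑ b ∈ Finset.range P, UN a b * UN (N - a) (P - 1 - b) +
      (if N = 0 then 0 else UN (N - 1) (P + 1)) = UN N P

/-- T09: the number of maps -/
def ST_T09 : Prop :=
  ∀ N P, 1 ≤ P → (Nat.card {x // x ∈ GQ N P} : ℝ) = (4 * N + 2 * P).factorial * uu N P

/-- the constant in the asymptotics of `uu` -/
def cP (P : ℕ) : ℝ := (2 * P).choose P * P * 2 ^ P / (2 * Real.sqrt Real.pi)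

/-- T10: asymptotics for `N → ∞` -/
def ST_T10 : Prop :=
  ∀ P, 1 ≤ P → Tendsto (fun N : ℕ => uu N P / 12 ^ N * (N : ℝ) ^ (5 / 2 : ℝ)) atTop (𝓝 (cP P))

/-- T11: size of the constant -/
def ST_T11 : Prop :=
  ∀ P : ℕ, 1 ≤ P → 8 ^ P * Real.sqrt P / 8 ≤ cP P ∧ cP P ≤ 8 ^ P * Real.sqrt P

/-- T12: the critical sums -/
def ST_T12 : Prop :=
  ∀ κ : ℕ, 1 ≤ κ → ∃ W : ℝ, HasSum (fun N => uu N κ / 12 ^ N) W ∧
    W ≤ 2 * 8 ^ κ / (κ : ℝ) ^ (5 / 2 : ℝ)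

/-- T13: limit of the pinch probabilities -/
def ST_T13 : Prop :=
  ∀ P κ : ℕ, 1 ≤ κ → κ < P → ∀ᶠ N : ℕ in atTop,
    ∑ a ∈ (Finset.range (N + 1)).filter (fun a => N ≤ 2 * P * (N - a)),
      uu a κ * uu (N - a) (P - κ) ≤ 64 / (κ : ℝ) ^ (5 / 2 : ℝ) * uu N P

end

end QR
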