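import Pool.Agent.Helper98.QR.Defs

/-!
# Interface of block D: planar exactness, filling a face, circle packing, disc models
-/

namespace QR

noncomputable section

open Filter Topology

open Classical in
/-- planar exactness (discrete `H^1 = 0`), for every abelian group -/
def ST_PL : Prop :=
  ∀ (D : Type) [Fintype D] (m : RMap D) (A : Type) [AddCommGroup A] (f : D → A) (o : D),
    m.Planar → (∀ d, f (m.opp d) = - f d) →
    (∀ d, ¬ m.face.SameCycle o d → ∑ d' with m.face.SameCycle d d', f d' = 0) →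
    ∃ g : m.Vert → A, ∀ d, f d = g (m.tail (m.opp d)) - g (m.tail d)

/-- filling the face of `o1` of a planar map by a planar map with a simple face `o2` of the same
degree (also used for the gluing of two quadrangulations along their boundaries) -/
def ST_FILL : Prop :=
  ∀ (D1 D2 : Type) [Fintype D1] [Fintype D2] (m1 : RMap D1) (m2 : RMap D2) (o1 : D1) (o2 : D2),
    m1.Planar → m2.Planar → m1.fdeg o1 = m2.fdeg o2 → m2.Simple o2 →
    (∀ e, m2.face.SameCycle o2 e → ¬ m2.face.SameCycle o2 (m2.opp e)) →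
    ∃ (D : Type) (_ : Fintype D) (m : RMap D) (j1 : D1 → D) (j2 : D2 → D),
      m.Planar ∧ Function.Injective j1 ∧
      (∀ d, j1 (m1.opp d) = m.opp (j1 d)) ∧ (∀ d, j2 (m2.opp d) = m.opp (j2 d)) ∧
      (∀ i : ℤ, j2 ((m2.face ^ (-i)) o2) = j1 (m1.opp ((m1.face ^ i) o1))) ∧
      (∀ d, ¬ m1.face.SameCycle o1 d → m.face (j1 d) = j1 (m1.face d)) ∧
      (∀ d, ¬ m2.face.SameCycle o2 d → m.face (j2 d) = j2 (m2.face d)) ∧
      (∀ x, x ∈ Set.range j1 ∨ x ∈ Set.range j2) ∧
      (∀ d d', ¬ m2.face.SameCycle o2 d → ¬ m2.face.SameCycle o2 d' → j2 d = j2 d' → d = d') ∧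
      (∀ d e, ¬ m2.face.SameCycle o2 e → j1 d = j2 e →
        ∃ i : ℤ, d = (m1.face ^ i) o1 ∧ e = m2.opp ((m2.face ^ (-i)) o2)) ∧
      -- vertices: old vertices stay distinct, the boundary vertices of `m2` become those of `m1`
      (∀ d d', m.tail (j1 d) = m.tail (j1 d') ↔ m1.tail d = m1.tail d') ∧
      (∀ d d', m2.tail d = m2.tail d' → m.tail (j2 d) = m.tail (j2 d')) ∧
      (∀ d d', (∀ i : ℤ, m2.tail d ≠ m2.tail ((m2.face ^ i) o2)) →
        m.tail (j2 d) = m.tail (j2 d') → m2.tail d = m2.tail d') ∧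
      (∀ d d', (∀ i : ℤ, m2.tail d ≠ m2.tail ((m2.face ^ i) o2)) → m.tail (j2 d) ≠ m.tail (j1 d'))

/-- circle packing theorem with the ring lemma: a triangulation of the sphere without loops and
multiple edges and with vertex degrees at most `Δ` is the tangency graph of a packing of discs, and
the radii of tangent discs are comparable -/
def ST_CP : Prop :=
  ∀ Δ : ℕ, ∃ K : ℝ, 1 ≤ K ∧ ∀ (D : Type) [Fintype D] (m : RMap D),
    m.Planar → (∀ d, m.fdeg d = 3) → (∀ d, m.tail d ≠ m.tail (m.opp d)) →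
    (∀ d d', m.tail d = m.tail d' → m.tail (m.opp d) = m.tail (m.opp d') → d = d') →
    (∀ d, m.vdeg d ≤ Δ) →
    ∃ (ctr : m.Vert → ℂ) (rad : m.Vert → ℝ), (∀ v, 0 < rad v) ∧
      (∀ u v, u ≠ v → rad u + rad v ≤ dist (ctr u) (ctr v)) ∧
      (∀ d, dist (ctr (m.tail d)) (ctr (m.tail (m.opp d))) =
        rad (m.tail d) + rad (m.tail (m.opp d))) ∧
      (∀ d, rad (m.tail d) ≤ K * rad (m.tail (m.opp d)))

/-- every quadrangulation of the sphere has a disc model with an absolute constant -/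
def ST_DM : Prop :=
  ∃ K : ℝ, 1 ≤ K ∧ ∀ (D : Type) [Fintype D] (m : RMap D),
    m.Planar → (∀ d, m.fdeg d = 4) → Nonempty (SPR.DiscModel K m.mult)

end

end QR
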