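import Pool.Agent.Helper98.QR.Defs

/-!
# Codes of pointed quadrangulations with a boundary (labelled forests attached to a bridge)
-/

namespace QR

noncomputable section

open Filter Topology

/-- Plane trees whose edges carry label increments `δ - 1 ∈ {-1, 0, 1}`.  `nil` is a single vertex,
`cons δ c s`: the first child of the root has label (label of the root) `+ δ - 1`, its own subtree is
`c`, and the root with its remaining children is `s`. -/
inductive LT : Type
  | nil : LT
  | cons (δ : Fin 3) (child sib : LT) : LT

namespace LT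

/-- number of edges -/
def edges : LT → ℕ
  | nil => 0
  | cons _ c s => c.edges + s.edges + 1

/-- label of the child -/
def ch (l : ℤ) (δ : Fin 3) : ℤ := l + ((δ : ℕ) : ℤ) - 1

/-- weight of a tree whose root has label `l`: a factor `ω (label)` for every corner and a factor
`θ (label)` for every vertex different from the root -/
def W (ω θ : ℤ → ℝ) : LT → ℤ → ℝ
  | nil, l => ω l
  | cons δ c s, l => ω l * (θ (ch l δ) * W ω θ c (ch l δ) * W ω θ s l)

/-- all vertices different from the root have labels `≥ k` (the root has label `l`) -/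
def ge (k : ℤ) : LT → ℤ → Prop
  | nil, _ => True
  | cons δ c s, l => k ≤ ch l δ ∧ ge k c (ch l δ) ∧ ge k s l

/-- number of vertices different from the root with label `≤ r` -/
def low (r : ℤ) : LT → ℤ → ℕ
  | nil, _ => 0
  | cons δ c s, l => (if ch l δ ≤ r then 1 else 0) + low r c (ch l δ) + low r s l

/-- number of corners with label `k` -/
def cor (k : ℤ) : LT → ℤ → ℕ
  | nil, l => if l = k then 1 else 0
  | cons δ c s, l => (if l = k then 1 else 0) + cor k c (ch l δ) + cor k s l

end LT

/-- A code: a closed walk `b` with steps `±1` and period `2 P`, and a tree `t i` at every down-step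
`i` (the label of the root of `t i` is `b i`). -/
@[ext]
structure Code (P : ℕ) where
  b : ℤ → ℤ
  t : ℤ → LT
  step : ∀ i, b (i + 1) = b i + 1 ∨ b (i + 1) = b i - 1
  up : ∀ i, b (i + 1) = b i + 1 → t i = LT.nil
  per_b : ∀ i, b (i + 2 * P) = b i
  per_t : ∀ i, t (i + 2 * P) = t i

open Classical in
/-- the down-steps of a closed walk in one period -/
def dn (P : ℕ) (b : ℤ → ℤ) : Finset ℤ := (Finset.Ico (0 : ℤ) (2 * P)).filter (fun i => b (i + 1) = b i - 1)

namespace Code

variable {P : ℕ}

/-- number of edges of the trees -/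
def size (c : Code P) : ℕ := ∑ i ∈ dn P c.b, (c.t i).edges

/-- product of the weights of the trees -/
def W (ω θ : ℤ → ℝ) (c : Code P) : ℝ := ∏ i ∈ dn P c.b, (c.t i).W ω θ (c.b i)

/-- number of corners with label `k` -/
def cor (k : ℤ) (c : Code P) : ℕ := ∑ i ∈ dn P c.b, (c.t i).cor k (c.b i)

/-- number of vertices (of the trees, roots included) with label `≤ r` -/
def low (r : ℤ) (c : Code P) : ℕ :=
  ∑ i ∈ dn P c.b, ((if c.b i ≤ r then 1 else 0) + (c.t i).low r (c.b i))

/-- all labels of the trees are `≥ 1` -/
def Pos (c : Code P) : Prop := ∀ i, c.b (i + 1) = c.b i - 1 → 1 ≤ c.b i ∧ (c.t i).ge 1 (c.b i)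

/-- the minimum of the closed walk is `k` -/
def Min (c : Code P) (k : ℤ) : Prop := (∀ i, k ≤ c.b i) ∧ ∃ i, c.b i = k

end Code

/-- number of quadrangulations with `N` inner faces and a general boundary of length `2 P`, rooted on
the boundary -/
def uu (N P : ℕ) : ℝ :=
  3 ^ N * (2 * P).factorial * (2 * N + P - 1).factorial /
    (P.factorial * (P - 1).factorial * N.factorial * (N + P + 1).factorial)

/-- rooted quadrangulations (general boundary) on the dart set `Fin (4 N + 2 P)` -/
def GQ (N P : ℕ) : Set (RMap (Fin (4 * N + 2 * P)) × Fin (4 * N + 2 * P)) :=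
  {x | x.1.IsQuad x.2 N P}

end

end QR
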