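import Pool.Agent.Helper98.SPR.Defs

/-!
# Planar maps, quadrangulations with a boundary, the half-plane limit and the gluing

Definitions for the two-sided recurrence theorem (MP_728613_pr, Q2).
-/

namespace QR

noncomputable section

open Filter Topology MeasureTheory

/-- A combinatorial map (rotation system) on the set `D` of darts (oriented edges): `opp d` is the
reversed dart and `rot d` is the next dart with the same tail, in counterclockwise order. -/
@[ext]
structure RMap (D : Type) where
  rot : Equiv.Perm D
  opp : Equiv.Perm D
  opp_opp : ∀ d, opp (opp d) = d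
  opp_ne : ∀ d, opp d ≠ d

namespace RMap

variable {D : Type}

/-- The next dart along the boundary of the face on the right of `d`. -/
def face (m : RMap D) : Equiv.Perm D := m.opp.trans m.rot

/-- Vertices: cycles of `rot`. -/
abbrev Vert (m : RMap D) : Type := Quotient (Equiv.Perm.SameCycle.setoid m.rot)

/-- Faces: cycles of `face`. -/
abbrev Face (m : RMap D) : Type := Quotient (Equiv.Perm.SameCycle.setoid m.face)

/-- The tail (origin) of a dart. -/
def tail (m : RMap D) (d : D) : m.Vert := Quotient.mk _ d

/-- The face on the right of a dart. -/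
def fc (m : RMap D) (d : D) : m.Face := Quotient.mk _ d

/-- The multigraph of a map: number of darts from `x` to `y`. -/
def mult (m : RMap D) (x y : m.Vert) : ℕ := Nat.card {d : D // m.tail d = x ∧ m.tail (m.opp d) = y}

/-- Any two darts are connected. -/
def Conn (m : RMap D) : Prop :=
  ∀ d d' : D, Relation.ReflTransGen (fun a b => b = m.rot a ∨ b = m.opp a) d d'

/-- Nonempty, connected, of genus `0`: `V - E + F = 2`. -/
def Planar (m : RMap D) : Prop :=
  Nonempty D ∧ m.Conn ∧ 2 * (Nat.card m.Vert + Nat.card m.Face) = Nat.card D + 4

/-- The degree of the face on the right of `d`. -/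
def fdeg (m : RMap D) (d : D) : ℕ := Nat.card {d' : D // m.face.SameCycle d d'}

/-- The degree of the tail of `d`. -/
def vdeg (m : RMap D) (d : D) : ℕ := Nat.card {d' : D // m.rot.SameCycle d d'}

/-- Quadrangulation with a (general) boundary of length `2 p` and `n` inner faces: the face on the
right of the root dart `o` has degree `2 p`, all other faces have degree `4`. -/
structure IsQuad (m : RMap D) (o : D) (n p : ℕ) : Prop where
  planar : m.Planar
  outer : m.fdeg o = 2 * p
  inner : ∀ d, ¬ m.face.SameCycle o d → m.fdeg d = 4
  card : Nat.card D = 4 * n + 2 * p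

/-- The boundary (the face of `o`) is a cycle without self-intersections. -/
def Simple (m : RMap D) (o : D) : Prop :=
  ∀ d d', m.face.SameCycle o d → m.face.SameCycle o d' → m.tail d = m.tail d' → d = d'

end RMap

/-- A multigraph `c` (number of darts from `x` to `y`) with a boundary path `b`. -/
structure BGraph (V : Type) where
  c : V → V → ℕ
  b : ℤ → V

/-- The multigraph of a map with its boundary path, started at the tail of the root dart. -/
def RMap.bg {D : Type} (m : RMap D) (o : D) : BGraph m.Vert where
  c := m.mult
  b := fun i => m.tail ((m.face ^ i) o)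

/-- The balls of radius `r` around `b 0` are isomorphic: the bijection respects the number of edges,
the set of boundary vertices and the boundary path near the root. -/
def BIso {V W : Type} (r : ℕ) (G : BGraph V) (G' : BGraph W) : Prop :=
  ∃ e : {v // SPR.Near G.c r (G.b 0) v} ≃ {v // SPR.Near G'.c r (G'.b 0) v},
    (∀ u v : {v // SPR.Near G.c r (G.b 0) v}, G.c (u : V) (v : V) = G'.c (e u : W) (e v : W)) ∧
    (∀ u : {v // SPR.Near G.c r (G.b 0) v}, (u : V) ∈ Set.range G.b ↔ (e u : W) ∈ Set.range G'.b) ∧
    (∀ (i : ℤ) (h : SPR.Near G.c r (G.b 0) (G.b i)), |i| ≤ r → ((e ⟨G.b i, h⟩ :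
      {v // SPR.Near G'.c r (G'.b 0) v}) : W) = G'.b i)

/-- The rooted quadrangulations with `n` inner faces and a simple boundary of length `2 p`
(labelled darts, so that every rooted map is counted the same number of times). -/
def SQ (n p : ℕ) : Set (RMap (Fin (4 * n + 2 * p)) × Fin (4 * n + 2 * p)) :=
  {x | x.1.IsQuad x.2 n p ∧ x.1.Simple x.2}

/-- Probability of `A` for the uniform rooted quadrangulation with `n` inner faces and a simple
boundary of length `2 p`. -/
def prob (n p : ℕ) (A : RMap (Fin (4 * n + 2 * p)) × Fin (4 * n + 2 * p) → Prop) : ℝ :=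
  (Nat.card {x // x ∈ SQ n p ∧ A x} : ℝ) / (Nat.card {x // x ∈ SQ n p} : ℝ)

/-- `H` (with law given by `P`) is the simple boundary uniform infinite half-planar quadrangulation:
the local limit of the uniform quadrangulations with `n` inner faces and a simple boundary of length
`2 p`, first `n → ∞`, then `p → ∞`. -/
structure IsUIHPQ {Ω : Type} [MeasurableSpace Ω] (P : Measure Ω) (H : Ω → BGraph ℕ) : Prop where
  meas_c : ∀ x y, Measurable (fun ω => (H ω).c x y)
  meas_b : ∀ i, Measurable (fun ω => (H ω).b i)
  symm : ∀ ω x y, (H ω).c x y = (H ω).c y x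
  locfin : ∀ ω x, (Function.support ((H ω).c x)).Finite
  lim : ∀ (r K : ℕ) (F : BGraph (Fin K)), ∃ L : ℕ → ℝ,
    (∀ p, 1 ≤ p → Tendsto (fun n => prob n p (fun x => BIso r (x.1.bg x.2) F)) atTop (𝓝 (L p))) ∧
    Tendsto L atTop (𝓝 (P {ω | BIso r (H ω) F}).toReal)

open Classical in
/-- The vertex of the gluing which represents the vertex `w` of the second graph. -/
def gluePt {V W : Type} (G : BGraph V) (G' : BGraph W) (w : W) : V ⊕ W :=
  if h : ∃ i : ℤ, G'.b (1 - i) = w then Sum.inl (G.b h.choose) else Sum.inr w

open Classical in
/-- The gluing of two half-planes along their boundaries: `G'.b (1 - i)` is identified with `G.b i`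
for every `i`, and so are the boundary edges (the root edge `b 0, b 1` of `G` with the root edge
`b 1, b 0` of `G'`, in opposite orientation).  Every edge of `G` is kept, and every edge of `G'` which
is not a boundary edge. -/
def glueC {V W : Type} (G : BGraph V) (G' : BGraph W) (x y : V ⊕ W) : ℕ :=
  (match x, y with
    | Sum.inl u, Sum.inl v => G.c u v
    | _, _ => 0) +
  ∑ᶠ (u : W) (v : W), if gluePt G G' u = x ∧ gluePt G G' v = y then
    (G'.c u v - (if ∃ i : ℤ, (G'.b i = u ∧ G'.b (i + 1) = v) ∨ (G'.b i = v ∧ G'.b (i + 1) = u)
      then 1 else 0)) else 0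

end

end QR
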