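import Pool.Agent.Helper98.QR.StmtsE

/-!
# Final assembly of the two-sided recurrence theorem
-/

namespace QR

noncomputable section

open Filter Topology MeasureTheory

open Classical in
/-- relabelling of `ℕ ⊕ ℕ` which sends a given point to `0` -/
theorem exists_relabel (v : ℕ ⊕ ℕ) : ∃ e : ℕ ⊕ ℕ ≃ ℕ, e v = 0 := by
  let e0 : ℕ ⊕ ℕ ≃ ℕ := Denumerable.eqv (ℕ ⊕ ℕ)
  exact ⟨e0.trans (Equiv.swap (e0 v) 0), by simp⟩

open Classical in
/-- the glued half-planes, relabelled; the zero multigraph if the pair is not regular -/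
def GG {Ω : Type} (H : Ω → BGraph ℕ) (x : Ω × Ω) : ℕ → ℕ → ℕ :=
  if RegP (H x.1) (H x.2) then
    fun u v => glueC (H x.1) (H x.2)
      ((exists_relabel (Sum.inl ((H x.1).b 0))).choose.symm u)
      ((exists_relabel (Sum.inl ((H x.1).b 0))).choose.symm v)
  else fun _ _ => 0

theorem GG_ballIso (h9 : ST_E09) {Ω : Type} (H : Ω → BGraph ℕ) (x : Ω × Ω)
    (hx : RegP (H x.1) (H x.2)) (r N : ℕ) (F : Fin N → Fin N → ℕ) (o : Fin N) :
    SPR.BallIso r (GG H x) 0 F o ↔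
      SPR.BallIso r (glueC (H x.1) (H x.2)) (Sum.inl ((H x.1).b 0)) F o := by
  have he := (exists_relabel (Sum.inl ((H x.1).b 0))).choose_spec
  have h1 : SPR.BallIso r (glueC (H x.1) (H x.2)) (Sum.inl ((H x.1).b 0)) (GG H x) 0 := by
    refine h9.2.2 r _ _ _ _ _ _ (exists_relabel (Sum.inl ((H x.1).b 0))).choose he ?_
    intro u v
    simp [GG, hx]
  constructor
  · intro h
    exact h9.2.1 r _ _ _ _ _ _ _ _ _ h1 h
  · intro h
    exact h9.2.1 r _ _ _ _ _ _ _ _ _ (h9.1 r _ _ _ _ _ _ h1) h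

theorem st_QR (h0 : ST_E00) (h5 : ST_E05) (h6 : ST_E06) (h7 : ST_E07) (h9 : ST_E09)
    (h10 : ST_E10) (h11 : ST_E11) (h12 : ST_E12) (h15 : ST_E15) (h16 : ST_E16) (h17 : ST_E17) (h18 : ST_E18) (h19 : ST_E19)
    (hS : ST_S) (hM : SPR.ST_MAIN) : ST_QR := by
  intro Ω _ P _ H hH
  obtain ⟨K, hK, hK'⟩ := hS
  obtain ⟨Kd, hKd, hdm⟩ := h10
  obtain ⟨n0, hn0⟩ := h16 Ω P H hH
  -- the sequence of sizes
  have hseq : ∀ k : ℕ, ∃ p n : ℕ, max k 2 ≤ p ∧ 1 ≤ p ∧ max (n0 k p) 1 ≤ n ∧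
      (SQ n p).Nonempty ∧
      (∀ h : ℕ, 1 ≤ h → h ≤ k → avS n p (Fdeg h) ≤ K * h ^ 5 * p) ∧
      (∀ t : ℕ, 1 ≤ t → t ≤ k → ∃ NetCard : (D : Type) → RMap D → D → ℝ,
        avS n p NetCard ≤ K * t ^ 16 * p ∧
        ∀ x ∈ SQ n p, ∃ Net : Set x.1.Vert, (Nat.card Net : ℝ) ≤ NetCard _ x.1 x.2 ∧
          ∀ v, NB x.1 x.2 (t ^ 35) v → ∃ z ∈ Net, SPR.Near x.1.mult (t ^ 17) v z) :=
    fun k => hK' k (max k 2) (fun p => max (n0 k p) 1)
  choose p n hp hp1 hn hne hdeg hnet using hseq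
  have hp2 : ∀ k, 2 ≤ p k := fun k => le_trans (le_max_right _ _) (hp k)
  have hpk : ∀ k, k ≤ p k := fun k => le_trans (le_max_left _ _) (hp k)
  have hn1 : ∀ k, 1 ≤ n k := fun k => le_trans (le_max_right _ _) (hn k)
  have hnk : ∀ k, n0 k (p k) ≤ n k := fun k => le_trans (le_max_left _ _) (hn k)
  have hlim := hn0 n p hpk hnk
  have hpt : Tendsto p atTop atTop := tendsto_atTop_mono hpk tendsto_id
  have hpair := h15 Ω P H hH n p hne hpt hlim
  -- finiteness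
  have hfinSQ : ∀ k, Finite {x // x ∈ SQ (n k) (p k)} := by
    intro k
    have := (h0 (Fin (4 * n k + 2 * p k))).1
    infer_instance
  have hfinV : ∀ k (x : RMap (Fin (4 * n k + 2 * p k))), Finite x.Vert :=
    fun k x => (h0 (Fin (4 * n k + 2 * p k))).2 x
  have hfinUV : ∀ k, Finite (UV (n k) (p k)) := by
    intro k
    have := hfinSQ k
    have : ∀ z : {x // x ∈ SQ (n k) (p k)} × {x // x ∈ SQ (n k) (p k)},
        Finite (z.1.1.1.Vert ⊕ z.2.1.1.Vert) := by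
      intro z
      have := hfinV k z.1.1.1
      have := hfinV k z.2.1.1
      infer_instance
    infer_instance
  letI : ∀ k, Fintype (UV (n k) (p k)) := fun k => Fintype.ofFinite _
  classical
  -- the roots
  let S : ∀ k, Finset (UV (n k) (p k)) := fun k => (Set.toFinite (US (n k) (p k))).toFinset
  have hSmem : ∀ k v, v ∈ S k ↔ v ∈ US (n k) (p k) := by
    intro k v
    simp [S]
  have hE18 := fun k => h18 (n k) (p k) (hn1 k) (hp2 k) (hne k) (S k) (hSmem k)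
  have hE19 := fun k (K' : ℝ) (hK' : 0 ≤ K') =>
    h19 (n k) (p k) K' (hn1 k) (hp2 k) hK' (hne k) (S k) (hSmem k)
  have hUin : ∀ k (z : {x // x ∈ SQ (n k) (p k)} × {x // x ∈ SQ (n k) (p k)}) u v,
      Uc (n k) (p k) ⟨z, u⟩ ⟨z, v⟩ = gl z.1.1.1 z.1.1.2 z.2.1.1 z.2.1.2 u v := by
    intro k z u v
    have := hfinSQ k
    have : ∀ z : {x // x ∈ SQ (n k) (p k)} × {x // x ∈ SQ (n k) (p k)},
        Finite (z.1.1.1.Vert ⊕ z.2.1.1.Vert) := by
      intro z
      have := hfinV k z.1.1.1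
      have := hfinV k z.2.1.1
      infer_instance
    exact (h12 _ (fun z : {x // x ∈ SQ (n k) (p k)} × {x // x ∈ SQ (n k) (p k)} =>
      z.1.1.1.Vert ⊕ z.2.1.1.Vert) (fun z => gl z.1.1.1 z.1.1.2 z.2.1.1 z.2.1.2)).1 z u v
  have hUout : ∀ k (z z' : {x // x ∈ SQ (n k) (p k)} × {x // x ∈ SQ (n k) (p k)}) u v, z ≠ z' →
      Uc (n k) (p k) ⟨z, u⟩ ⟨z', v⟩ = 0 := by
    intro k z z' u v hz
    have := hfinSQ k
    have : ∀ z : {x // x ∈ SQ (n k) (p k)} × {x // x ∈ SQ (n k) (p k)},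
        Finite (z.1.1.1.Vert ⊕ z.2.1.1.Vert) := by
      intro z
      have := hfinV k z.1.1.1
      have := hfinV k z.2.1.1
      infer_instance
    exact (h12 _ (fun z : {x // x ∈ SQ (n k) (p k)} × {x // x ∈ SQ (n k) (p k)} =>
      z.1.1.1.Vert ⊕ z.2.1.1.Vert) (fun z => gl z.1.1.1 z.1.1.2 z.2.1.1 z.2.1.2)).2.1 z z' u v hz
  have hreg : ∀ k (z : {x // x ∈ SQ (n k) (p k)} × {x // x ∈ SQ (n k) (p k)}),
      RegP (z.1.1.1.bg z.1.1.2) (z.2.1.1.bg z.2.1.2) := fun k z =>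
    (h5 (n k) (p k) (hp2 k) z.1.1 z.1.2).2.2 z.2.1 z.2.2
  have hsymm : ∀ k x y, Uc (n k) (p k) x y = Uc (n k) (p k) y x := by
    rintro k ⟨z, u⟩ ⟨z', v⟩
    by_cases hz : z = z'
    · subst hz
      rw [hUin, hUin]
      exact (h7 _ _ _ _ (hreg k z)).2.2.1 u v
    · rw [hUout k z z' u v hz, hUout k z' z v u (Ne.symm hz)]
  have hSne : ∀ k, (S k).Nonempty := by
    intro k
    obtain ⟨x, hx⟩ := hne k
    refine ⟨⟨(⟨x, hx⟩, ⟨x, hx⟩), Sum.inl ((x.1.bg x.2).b 0)⟩, ?_⟩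
    rw [hSmem]
    exact ⟨0, rfl⟩
  have hadj : ∀ k, ∀ w ∈ S k, ∃ y, Uc (n k) (p k) w y ≠ 0 := by
    rintro k ⟨z, u⟩ hw
    rw [hSmem] at hw
    obtain ⟨i, hi⟩ := hw
    simp only at hi
    subst hi
    refine ⟨⟨z, Sum.inl ((z.1.1.1.bg z.1.1.2).b (i + 1))⟩, ?_⟩
    rw [hUin]
    have h1 := (h7 _ _ _ _ (hreg k z)).2.2.2.2.1 ((z.1.1.1.bg z.1.1.2).b i)
      ((z.1.1.1.bg z.1.1.2).b (i + 1))
    have h2 := (h5 (n k) (p k) (hp2 k) z.1.1 z.1.2).1 i
    intro h3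
    change glueC _ _ _ _ = 0 at h3
    rw [h3] at h1
    omega
  have hDM : ∀ k, Nonempty (SPR.DiscModel Kd (Uc (n k) (p k))) := by
    intro k
    have := hfinSQ k
    have : ∀ z : {x // x ∈ SQ (n k) (p k)} × {x // x ∈ SQ (n k) (p k)},
        Finite (z.1.1.1.Vert ⊕ z.2.1.1.Vert) := by
      intro z
      have := hfinV k z.1.1.1
      have := hfinV k z.2.1.1
      infer_instance
    exact h11 Kd _ (fun z : {x // x ∈ SQ (n k) (p k)} × {x // x ∈ SQ (n k) (p k)} =>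
      z.1.1.1.Vert ⊕ z.2.1.1.Vert) (fun z => gl z.1.1.1 z.1.1.2 z.2.1.1 z.2.1.2) hKd
      (fun z => hdm (n k) (p k) (hn1 k) (hp2 k) z.1.1 z.1.2 z.2.1 z.2.2)
  have ha : 0 < Real.log (13 / 12) / 2 := by
    have : 0 < Real.log (13 / 12) := Real.log_pos (by norm_num)
    linarith
  have hloc : SPR.LocalLimit (fun k => Uc (n k) (p k)) S (P.prod P) (GG H) := by
    intro r N F o
    have h1 : (P.prod P) {ω | SPR.BallIso r (GG H ω) 0 F o} =
        (P.prod P) {ω | SPR.BallIso r (glueC (H ω.1) (H ω.2)) (Sum.inl ((H ω.1).b 0)) F o} := by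
      apply measure_congr
      filter_upwards [h6 Ω P H hH] with ω hω
      exact propext (GG_ballIso h9 H ω hω.1 r N F o)
    rw [h1]
    refine (hpair r N F o).congr ?_
    intro k
    have h2 := (hE18 k).2 r N F o
    rw [← h2]
  have hGs : ∀ ω x y, GG H ω x y = GG H ω y x := by
    intro ω x y
    by_cases hr : RegP (H ω.1) (H ω.2)
    · simp only [GG, hr, if_true]
      exact (h7 _ _ _ _ hr).2.2.1 _ _
    · simp [GG, hr]
  have hGf : ∀ ω x, (Function.support (GG H ω x)).Finite := by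
    intro ω x
    by_cases hr : RegP (H ω.1) (H ω.2)
    · have h1 := (h7 _ _ _ _ hr).2.2.2.1
        ((exists_relabel (Sum.inl ((H ω.1).b 0))).choose.symm x)
      refine (h1.image (exists_relabel (Sum.inl ((H ω.1).b 0))).choose).subset ?_
      intro y hy
      refine ⟨(exists_relabel (Sum.inl ((H ω.1).b 0))).choose.symm y, ?_, by simp⟩
      simpa [GG, hr, Function.mem_support] using hy
    · have : GG H ω x = fun _ => 0 := by
        funext y; simp [GG, hr]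
      rw [this]
      simp
  have hrec := hM Kd (2 * K + 1) (Real.log (13 / 12) / 2) 5 35 17 16 hKd (by linarith) ha
    (by norm_num) (by norm_num) (fun k => UV (n k) (p k)) (fun k => Uc (n k) (p k)) S hsymm hDM hSne
    hadj (by
      intro h hh
      filter_upwards [eventually_ge_atTop h] with k hk
      have h1 := hdeg k h hh hk
      have h2 := (hE19 k (K * h ^ 5) (by positivity)).1 h h1
      have h3 : 2 * (K * (h : ℝ) ^ 5) * ((S k).card : ℝ) ≤ (2 * K + 1) * (h : ℝ) ^ 5 * ((S k).card : ℝ) := by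
        have : (0 : ℝ) ≤ (h : ℝ) ^ 5 * ((S k).card : ℝ) := by positivity
        nlinarith
      refine le_trans (le_of_eq ?_) (h2.trans h3)
      congr!)
    (by
      intro t ht
      filter_upwards [eventually_ge_atTop t] with k hk
      obtain ⟨NC, h1, h2⟩ := hnet k t ht hk
      obtain ⟨Net, h3, h4⟩ := (hE19 k (K * t ^ 16) (by positivity)).2 (t ^ 35) (t ^ 17) NC h1 h2
      refine ⟨Net, h3.trans ?_, h4⟩
      have : (0 : ℝ) ≤ (t : ℝ) ^ 16 * ((S k).card : ℝ) := by positivity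
      nlinarith)
    (Ω × Ω) (P.prod P) (GG H) hGs hGf hloc
  filter_upwards [hrec, h6 Ω P H hH] with ω h1 h2
  have he := (exists_relabel (Sum.inl ((H ω.1).b 0))).choose_spec
  have h3 := (h17 _ _ (glueC (H ω.1) (H ω.2)) (GG H ω) (Sum.inl ((H ω.1).b 0))
    (exists_relabel (Sum.inl ((H ω.1).b 0))).choose (by intro u v; simp [GG, h2.1])).2
  rw [he] at h3
  exact h3 h1

end

end QR
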