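import Pool.Agent.Helper58.CP.Final
import Pool.Agent.Helper88.QR.FinalB
import Pool.Agent.Helper70.QR.A00
import Pool.Agent.Helper58.QR.A01
import Pool.Agent.Helper58.QR.A02
import Pool.Agent.Helper99.QR.A03
import Pool.Agent.Helper41.QR.A06
import Pool.Agent.Helper99.QR.A07
import Pool.Agent.Helper35.QR.A08
import Pool.Agent.Helper58.QR.A09
import Pool.Agent.Helper91.QR.A10
import Pool.Agent.Helper91.QR.A11
import Pool.Agent.Helper2.QR.A12
import Pool.Agent.Helper65.QR.A13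
import Pool.Agent.Helper65.QR.A14
import Pool.Agent.Helper35.QR.AA
import Pool.Agent.Helper71.QR.C01
import Pool.Agent.Helper71.QR.C02
import Pool.Agent.Helper91.QR.C03
import Pool.Agent.Helper71.QR.C04
import Pool.Agent.Helper99.QR.C05
import Pool.Agent.Helper71.QR.C06
import Pool.Agent.Helper64.QR.C07
import Pool.Agent.Helper79.QR.C08
import Pool.Agent.Helper91.QR.C09
import Pool.Agent.Helper99.QR.C10
import Pool.Agent.Helper32.QR.C11
import Pool.Agent.Helper3.QR.C14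
import Pool.Agent.Helper42.QR.C15
import Pool.Agent.Helper42.QR.C16
import Pool.Agent.Helper87.QR.C17
import Pool.Agent.Helper99.QR.C20
import Pool.Agent.Helper99.QR.C21
import Pool.Agent.Helper78.QR.C22
import Pool.Agent.Helper78.QR.C23
import Pool.Agent.Helper65.QR.C24
import Pool.Agent.Helper65.QR.C25
import Pool.Agent.Helper87.QR.C26
import Pool.Agent.Helper63.QR.C27
import Pool.Agent.Helper63.QR.C30
import Pool.Agent.Helper78.QR.C31
import Pool.Agent.Helper63.QR.C32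
import Pool.Agent.Helper87.QR.C33
import Pool.Agent.Helper78.QR.S01
import Pool.Agent.Helper66.QR.S02
import Pool.Agent.Helper78.QR.S03
import Pool.Agent.Helper1.QR.S04
import Pool.Agent.Helper39.QR.S05
import Pool.Agent.Helper28.QR.S06
import Pool.Agent.Helper33.QR.S07
import Pool.Agent.Helper33.QR.S08
import Pool.Agent.Helper62.QR.S09
import Pool.Agent.Helper39.QR.SS
import Pool.Agent.Helper22.QR.T01
import Pool.Agent.Helper12.QR.T02
import Pool.Agent.Helper12.QR.T03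
import Pool.Agent.Helper12.QR.T04S
import Pool.Agent.Helper12.QR.T06S
import Pool.Agent.Helper3.QR.T07
import Pool.Agent.Helper11.QR.T08
import Pool.Agent.Helper39.QR.T09
import Pool.Agent.Helper11.QR.T10
import Pool.Agent.Helper79.QR.T11
import Pool.Agent.Helper11.QR.T12
import Pool.Agent.Helper22.QR.T13

/-!
# Assembly of blocks A, B, C, T, S
-/

namespace QR

/-- block C -/
theorem fin_C : ST_C01 ∧ ST_C04 ∧ ST_C14 ∧ ST_C17 ∧ ST_C27 ∧ ST_C33 := by
  have h1 : ST_C01 := st_C01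
  have h2 : ST_C02 := st_C02 h1
  have h3 : ST_C03 := st_C03 h1
  have h4 : ST_C04 := st_C04
  have h5 : ST_C05 := st_C05 h1 h2
  have h6 : ST_C06 := st_C06
  have h7 : ST_C07 := st_C07 h2 h5 h6
  have h8 : ST_C08 := st_C08 h6
  have h9 : ST_C09 := st_C09
  have h10 : ST_C10 := st_C10 h1 h4 h7 h8 h9
  have h11 : ST_C11 := st_C11
  have h12 : ST_C12 := st_C12
  have h13 : ST_C13 := st_C13
  have h14 : ST_C14 := st_C14 h1 h3 h10 h13
  have h15 : ST_C15 := st_C15
  have h16 : ST_C16 := st_C16 h2 h5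
  have h17 : ST_C17 := st_C17 h1 h3 h15 h16
  have h20 : ST_C20 := st_C20 h1 h4 h5 h10
  have h21 : ST_C21 := st_C21 h1 h2 h4 h10 h11
  have h22 : ST_C22 := st_C22
  have h23 : ST_C23 := st_C23
  have h24 : ST_C24 := QR65.st_C24 h10 h12 h20 h21 h22 h23
  have h25 : ST_C25 := QR65.st_C25 h10 h11 h12 h20 h21 h22 h23 h24
  have h26 : ST_C26 := st_C26 h1
  have h27 : ST_C27 := st_C27 h1 h3 h4 h10 h11 h13 h21 h24 h25 h26
  have h30 : ST_C30 := st_C30
  have h31 : ST_C31 := st_C31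
  have h32 : ST_C32 := st_C32 h31
  have h33 : ST_C33 := st_C33 h30 h32
  exact ⟨h1, h4, h14, h17, h27, h33⟩

/-- block T -/
theorem fin_T : ST_T09 ∧ ST_T10 ∧ ST_T11 ∧ ST_T13 := by
  have h3 : ST_T03 := st_T03 st_B QR22.st_T01 st_T02
  have h7 : ST_T07 := st_T07 st_T04S st_T05S st_T06S
  have h9 : ST_T09 := st_T09 h3 h7 st_T08
  have h10 : ST_T10 := st_T10
  have h11 : ST_T11 := st_T11
  have h12 : ST_T12 := st_T12
  exact ⟨h9, h10, h11, QR22.st_T13 h10 h11 h12⟩

/-- block A -/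
theorem fin_A : ST_A := by
  have h0 : ST_A00 := st_A00
  have h1 : ST_A01 := st_A01
  have h2 : ST_A02 := st_A02 h1
  have h3 : ST_A03 := st_A03 h2
  have h4 : ST_A04 := st_A04
  have h5 : ST_A05 := st_A05
  have h6 : ST_A06 := st_A06 h1 h4
  have h7 : ST_A07 := st_A07 h4 h5 h6
  have h8 : ST_A08 := st_A08 h0 h6
  have h9 : ST_A09 := st_A09 h4 h6
  have h10 : ST_A10 := st_A10 h1
  have h11 : ST_A11 := st_A11 h1
  have h12 : ST_A12 := st_A12 h3 h6 h10
  have h13 : ST_A13 := QR65.st_A13 h11 fin_T.2.2.2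
  have h14 : ST_A14 := QR65.st_A14 h0 h6 h12 h13
  exact st_AA h7 h8 h9 h14

/-- block S -/
theorem fin_S : ST_S := by
  obtain ⟨c1, c4, c14, c17, c27, c33⟩ := fin_C
  obtain ⟨t9, t10, t11, -⟩ := fin_T
  have hB : ST_B := st_B
  have s1 : ST_S01 := st_S01
  have s2 : ST_S02 := st_S02 hB c1 c4
  have s3 : ST_S03 := st_S03 c1 c4 hB
  have s4 : ST_S04 := st_S04 s1 c1 hB
  have s5 : ST_S05 := st_S05 t9 t10 t11
  have s6 : ST_S06 := QR28.st_S06 s2 s3 s4 s5 c14 c17 c27 c33
  have s7 : ST_S07 := st_S07 s1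
  have s8 : ST_S08 := st_S08 s6 s7 fin_A t9
  have s9 : ST_S09 := QRS09.st_S09 s1
  exact st_S s8 s9

end QR
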