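import Pool.Agent.Helper98.QR.EF
import Pool.Agent.Helper98.QR.FinS
import Pool.Agent.Helper89.QR.E00
import Pool.Agent.Helper51.QR.E01
import Pool.Agent.Helper79.QR.E02
import Pool.Agent.Helper18.QR.E03
import Pool.Agent.Helper76.QR.E04
import Pool.Agent.Helper93.QR.E05
import Pool.Agent.Helper63.QR.E06
import Pool.Agent.Helper70.QR.E08
import Pool.Agent.Helper76.QR.E09
import Pool.Agent.Helper22.QR.E10
import Pool.Agent.Helper48.QR.E11
import Pool.Agent.Helper12.QR.E12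
import Pool.Agent.Helper31.QR.E13
import Pool.Agent.Helper76.QR.E14
import Pool.Agent.Helper55.QR.E15
import Pool.Agent.Helper76.QR.E16
import Pool.Agent.Helper76.QR.E17
import Pool.Agent.Helper41.QR.E18
import Pool.Agent.Helper62.QR.E19
import Pool.Agent.Helper20.SPR.MAG
import Pool.Agent.Helper22.SPR.FIN
import Pool.Agent.Helper98.SPR.HTc
import Pool.Agent.Helper27.SPR.EN
import Pool.Agent.Helper28.SPR.CROSS
import Pool.Agent.Helper28.SPR.REC1
import Pool.Agent.Helper59.SPR.ISO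
import Pool.Agent.Helper59.SPR.REC2
import Pool.Agent.Helper61.SPR.AREA
import Pool.Agent.Helper61.SPR.AREA2
import Pool.Agent.Helper78.SPR.MAIN
import Pool.Agent.Helper80.SPR.EDGE
import Pool.Agent.Helper82.SPR.GRID
import Pool.Agent.Helper82.SPR.LIFT
import Pool.Agent.Helper82.SPR.POT
import Pool.Agent.Helper82.SPR.RSUM
import Pool.Agent.Helper87.SPR.LIM

/-!
# Final assembly: the two-sided map is recurrent
-/

namespace QR

/-- the recurrence theorem for sparse roots -/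
theorem fin_MAIN : SPR.ST_MAIN := by
  have hAREA : SPR.ST_AREA := SPR.st_AREA
  have hEDGE : SPR.ST_EDGE := SPR.st_EDGE
  have hLIFT : SPR.ST_LIFT := SPR.st_LIFT
  have hMAG : SPR.ST_MAG := SPR.st_MAG hAREA SPR.st_POT SPR.st_GRID
  have hCROSS : SPR.ST_CROSS := SPR.st_CROSS hAREA (SPR.st_AREA2 hAREA) hEDGE
  have hHT : SPR.ST_HT := SPR.st_HT hEDGE hCROSS hLIFT
  have hEN : SPR.ST_EN := SPR.st_EN (SPR.st_RSUM hAREA) hEDGE hLIFT SPR.st_EN1
  have hFIN : SPR.ST_FIN := SPR.st_FIN hMAG hHT hEN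
  have hLIM : SPR.ST_LIM := SPR.st_LIM SPR.st_ISO
  have hREC : SPR.ST_REC2 := SPR.st_REC2 SPR.st_REC1
  exact SPR.st_MAIN hFIN hLIM hREC

/-- the two-sided map is recurrent -/
theorem fin_QR_of (e7 : ST_E07) : ST_QR := by
  have e0 : ST_E00 := QR89.st_E00
  have e1 : ST_E01 := st_E01
  have e2 : ST_E02 := QR79.st_E02
  have e3 : ST_E03 := st_E03
  have e5 : ST_E05 := st_E05
  have e4 : ST_E04 := st_E04 e1 e2 e5
  have e6 : ST_E06 := st_E06 e4 e5
  have e8 : ST_E08 := st_E08 e1 e7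
  have e9 : ST_E09 := st_E09
  have e11 : ST_E11 := QR.st_E11
  have e10 : ST_E10 := QR22.st_E10 fill dm e5 e7 e11
  have e12 : ST_E12 := st_E12
  have e13 : ST_E13 := st_E13 e5 e7 st_S01
  have e14 : ST_E14 := st_E14 e5 e7
  have e15 : ST_E15 := QR55.st_E15 e1 e2 e3 e5 e6 e8 e9
  have e16 : ST_E16 := st_E16
  have e17 : ST_E17 := st_E17
  have e18 : ST_E18 := st_E18 e0 e5 e12 e14
  have e19 : ST_E19 := QRE19.st_E19 e12 e13
  exact st_QR e0 e5 e6 e7 e9 e10 e11 e12 e15 e16 e17 e18 e19 fin_S fin_MAIN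

end QR
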