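import Pool.Agent.Helper98.QR.FinE
import Pool.Agent.Helper12.QR.E07
import Pool.Agent.Helper32.QR.QR2

/-!
# The two-sided map is recurrent
-/

namespace QR

open MeasureTheory

/-- the two-sided map is recurrent (product form) -/
theorem fin_QR : ST_QR := fin_QR_of st_E07

end QR
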