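import Pool.Agent.Helper98.QR.Codes

/-!
# Interface of block B: the code of a pointed quadrangulation with a general boundary
-/

namespace QR

noncomputable section

open Filter Topology

/-- Cori-Vauquelin-Schaeffer / Bouttier-Di Francesco-Guitter: the code of a pointed map. -/
def ST_B : Prop :=
  ∀ (N P : ℕ), 1 ≤ P →
    ∃ κ : (Σ x : {x // x ∈ GQ N P}, x.1.1.Vert) → Code P,
      (∀ y, (κ y).size = N) ∧
      -- the trees have labels `≥ 1`
      (∀ y, (κ y).Pos) ∧
      -- the labels of the walk are the distances of the boundary vertices to the marked vertex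
      (∀ y i, 0 ≤ (κ y).b i) ∧
      (∀ y i (r : ℕ), (κ y).b i ≤ r ↔
        SPR.Near y.1.1.1.mult r y.2 (y.1.1.1.tail ((y.1.1.1.face ^ i) y.1.1.2))) ∧
      -- the corners with label `1` are the edges at the marked vertex
      (∀ y, (κ y).cor 1 = SPR.deg y.1.1.1.mult y.2) ∧
      -- the vertices with label `≤ r` are the other vertices of the ball of radius `r`
      (∀ y (r : ℕ), (κ y).low r + 1 = Nat.card {u // SPR.Near y.1.1.1.mult r y.2 u}) ∧
      -- the code determines the map
      (∀ c, Nat.card {y // κ y = c} ≤ (4 * N + 2 * P).factorial)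

end

end QR
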