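import Pool.Agent.Helper98.QR.Codes

/-!
# Block A: the simple core of the root (rows), and general facts on permutations
-/

namespace QR

noncomputable section

open Filter Topology

/-! ## Definitions -/

/-- the cycles (fixed points included) of a permutation -/
abbrev Cyc {S : Type} (σ : Equiv.Perm S) : Type := Quotient (Equiv.Perm.SameCycle.setoid σ)

/-- `ρ` is the first return map of `σ` to `B` (and the identity outside `B`) -/
def IsRet {S : Type} (σ : Equiv.Perm S) (B : Set S) (ρ : Equiv.Perm S) : Prop :=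
  (∀ x ∉ B, ρ x = x) ∧
  ∀ x ∈ B, ρ x ∈ B ∧ ∃ k : ℕ, 1 ≤ k ∧ ρ x = (σ ^ k) x ∧ ∀ j, 1 ≤ j → j < k → (σ ^ j) x ∉ B

/-- darts of the face of `o` -/
def outer {D : Type} (m : RMap D) (o : D) : Set D := {d | m.face.SameCycle o d}

/-- `v` is a boundary vertex -/
def OnB {D : Type} (m : RMap D) (o : D) (v : m.Vert) : Prop := ∃ e ∈ outer m o, m.tail e = v

/-- the map cut at all corners of the outer face (`ρ` = first return map to the outer darts) -/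
def cut {D : Type} (m : RMap D) (ρ : Equiv.Perm D) : RMap D where
  rot := ρ⁻¹ * m.rot
  opp := m.opp
  opp_opp := m.opp_opp
  opp_ne := m.opp_ne

/-- `(m', o')` is (a labelled copy, by `j`, of) the root component of the map cut at the outer
corners: the simple core of the root -/
def IsCore {D' D : Type} (m' : RMap D') (o' : D') (m : RMap D) (o : D) (j : D' → D) : Prop :=
  ∃ ρ : Equiv.Perm D, IsRet m.rot (outer m o) ρ ∧ Function.Injective j ∧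
    (∀ d, j (m'.rot d) = (cut m ρ).rot (j d)) ∧ (∀ d, j (m'.opp d) = m.opp (j d)) ∧ j o' = o ∧ m'.Conn

/-- embedding of a part of a map: the boundary of the part is on the boundary, the interior vertices
of the part keep all their darts -/
def Emb {D' D : Type} (m' : RMap D') (o' : D') (m : RMap D) (o : D) : Prop :=
  ∃ j : D' → D, Function.Injective j ∧ (∀ d, j (m'.opp d) = m.opp (j d)) ∧
    (∀ d e, m'.tail d = m'.tail e ↔ m.tail (j d) = m.tail (j e)) ∧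
    (∀ d ∈ outer m' o', j d ∈ outer m o) ∧
    (∀ d, OnB m o (m.tail (j d)) → OnB m' o' (m'.tail d)) ∧
    (∀ d x, ¬ OnB m' o' (m'.tail d) → m.tail x = m.tail (j d) → x ∈ Set.range j)

open Classical in
/-- average over the quadrangulations with a simple boundary -/
def avS (n p : ℕ) (X : (D : Type) → RMap D → D → ℝ) : ℝ :=
  (∑ᶠ (x) (_ : x ∈ SQ n p), X _ x.1 x.2) / (Nat.card {x // x ∈ SQ n p} : ℝ)

open Classical in
/-- average over the quadrangulations with a general boundary -/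
def avG (N P : ℕ) (X : (D : Type) → RMap D → D → ℝ) : ℝ :=
  (∑ᶠ (x) (_ : x ∈ GQ N P), X _ x.1 x.2) / (Nat.card {x // x ∈ GQ N P} : ℝ)

/-! ## General facts on permutations (also for block B) -/

/-- A00: existence and uniqueness of the first return map -/
def ST_A00 : Prop :=
  ∀ (S : Type) [Finite S] (σ : Equiv.Perm S) (B : Set S), ∃! ρ : Equiv.Perm S, IsRet σ B ρ

/-- A01: Euler inequality for connected maps -/
def ST_A01 : Prop :=
  ∀ (D : Type) [Finite D] (m : RMap D), Nonempty D → m.Conn →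
    2 * (Nat.card m.Vert + Nat.card m.Face) ≤ Nat.card D + 4

/-- A02: Euler inequality for two permutations which generate a transitive group -/
def ST_A02 : Prop :=
  ∀ (S : Type) [Finite S] (c ψ : Equiv.Perm S), Nonempty S →
    (∀ x y : S, Relation.ReflTransGen (fun a b => b = c a ∨ b = ψ a) x y) →
    Nat.card (Cyc c) + Nat.card (Cyc ψ) + Nat.card (Cyc (c⁻¹ * ψ)) ≤ Nat.card S + 2

/-- A03: planar pairs: `c` is the first return map of the long cycle `ψ` to every cycle of `c` -/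
def ST_A03 : Prop :=
  ∀ (S : Type) [Finite S] (c ψ : Equiv.Perm S), (∀ x y, ψ.SameCycle x y) →
    Nat.card (Cyc c) + Nat.card (Cyc (c⁻¹ * ψ)) = Nat.card S + 1 →
    ∀ x : S, ∃ k : ℕ, 1 ≤ k ∧ c x = (ψ ^ k) x ∧ ∀ j, 1 ≤ j → j < k → ¬ c.SameCycle x ((ψ ^ j) x)

/-- A04: structure of a permutation cut at `B` -/
def ST_A04 : Prop :=
  ∀ (S : Type) [Finite S] (σ ρ : Equiv.Perm S) (B : Set S), IsRet σ B ρ →
    (∀ x ∈ B, ∀ y ∈ B, (ρ⁻¹ * σ).SameCycle x y → x = y) ∧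
    Nat.card (Cyc σ) + Nat.card S = Nat.card (Cyc (ρ⁻¹ * σ)) + Nat.card (Cyc ρ) ∧
    (∀ x y, σ.SameCycle x y ↔ (ρ⁻¹ * σ).SameCycle x y ∨
      ∃ b ∈ B, ∃ b' ∈ B, (ρ⁻¹ * σ).SameCycle x b ∧ ρ.SameCycle b b' ∧ (ρ⁻¹ * σ).SameCycle b' y)

/-- A05: glueing cycles along `B` -/
def ST_A05 : Prop :=
  ∀ (S : Type) [Finite S] (s ρ : Equiv.Perm S) (B : Set S),
    (∀ x ∈ B, ∀ y ∈ B, s.SameCycle x y → x = y) → (∀ x ∉ B, ρ x = x) → (∀ x ∈ B, ρ x ∈ B) →
    IsRet (ρ * s) B ρ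

/-! ## The core -/

/-- A06: structure of the map cut at the outer corners: every component is a quadrangulation with a
simple boundary; the components and the boundary vertices form a tree -/
def ST_A06 : Prop :=
  ∀ (D : Type) [Finite D] (m : RMap D) (o : D) (N P : ℕ) (ρ : Equiv.Perm D), 1 ≤ P →
    m.IsQuad o N P → IsRet m.rot (outer m o) ρ →
    -- number of components
    Nat.card (Quot (fun a b => b = (cut m ρ).rot a ∨ b = (cut m ρ).opp a)) + Nat.card (Cyc ρ) =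
      Nat.card D + 1 ∧
    ∀ (D' : Type) [Finite D'] (m' : RMap D') (j : D' → D) (o' : D'), Function.Injective j →
      (∀ d, j (m'.rot d) = (cut m ρ).rot (j d)) → (∀ d, j (m'.opp d) = m.opp (j d)) → m'.Conn →
      j o' ∈ outer m o →
      (∃ n p, 1 ≤ p ∧ p ≤ P ∧ n ≤ N ∧ m'.IsQuad o' n p) ∧ m'.Simple o' ∧
      (∀ d, d ∈ outer m' o' ↔ j d ∈ outer m o) ∧
      (∀ x y, m.tail (j x) = m.tail (j y) → m'.tail x = m'.tail y)

/-- A07: the core is uniform given its type -/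
def ST_A07 : Prop :=
  ∀ (N P n p : ℕ), 1 ≤ P → 1 ≤ p → ∀ y ∈ SQ n p, ∀ y' ∈ SQ n p,
    Nat.card {z : (RMap (Fin (4 * N + 2 * P)) × Fin (4 * N + 2 * P)) ×
        (Fin (4 * n + 2 * p) → Fin (4 * N + 2 * P)) // z.1 ∈ GQ N P ∧ IsCore y.1 y.2 z.1.1 z.1.2 z.2} =
    Nat.card {z : (RMap (Fin (4 * N + 2 * P)) × Fin (4 * N + 2 * P)) ×
        (Fin (4 * n + 2 * p) → Fin (4 * N + 2 * P)) // z.1 ∈ GQ N P ∧ IsCore y'.1 y'.2 z.1.1 z.1.2 z.2}

/-- A08: every map has a core, unique up to relabelling -/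
def ST_A08 : Prop :=
  ∀ (N P : ℕ), 1 ≤ P → ∀ x ∈ GQ N P, ∃ n p : ℕ, 1 ≤ p ∧ p ≤ P ∧ n ≤ N ∧
    Nat.card {z : (RMap (Fin (4 * n + 2 * p)) × Fin (4 * n + 2 * p)) ×
        (Fin (4 * n + 2 * p) → Fin (4 * N + 2 * P)) // z.1 ∈ SQ n p ∧ IsCore z.1.1 z.1.2 x.1 x.2 z.2} =
      (4 * n + 2 * p).factorial ∧
    ∀ (n' p' : ℕ) (y : RMap (Fin (4 * n' + 2 * p')) × Fin (4 * n' + 2 * p')) (j), y ∈ SQ n' p' →
      IsCore y.1 y.2 x.1 x.2 j → n' = n ∧ p' = p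

/-- A09: the core is embedded -/
def ST_A09 : Prop :=
  ∀ (N P : ℕ) (D D' : Type) [Finite D] [Finite D'] (m : RMap D) (o : D) (m' : RMap D') (o' : D')
    (j : D' → D), 1 ≤ P → m.IsQuad o N P → IsCore m' o' m o j → Emb m' o' m o

/-! ## Size of the core -/

open Classical in
/-- A10: splitting at a boundary vertex which is visited twice -/
def ST_A10 : Prop :=
  ∀ (D : Type) [Finite D] (m : RMap D) (o : D) (N P l : ℕ), 1 ≤ P → m.IsQuad o N P →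
    1 ≤ l → l < 2 * P → m.tail o = m.tail ((m.face ^ l) o) →
    ∃ (D1 : Set D) (κ N1 N2 : ℕ), l = 2 * κ ∧ N1 + N2 = N ∧ o ∈ D1 ∧ (m.face ^ l) o ∉ D1 ∧
      Nat.card D1 = 4 * N1 + 2 * κ ∧
      (∀ d, m.opp d ∈ D1 ↔ d ∈ D1) ∧
      (∀ d, (cut m (Equiv.swap o ((m.face ^ l) o))).rot d ∈ D1 ↔ d ∈ D1) ∧
      (∀ (D' : Type) [Finite D'] (m' : RMap D') (j : D' → D) (o' : D'), Function.Injective j →
        (∀ d, j (m'.rot d) = (cut m (Equiv.swap o ((m.face ^ l) o))).rot (j d)) →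
        (∀ d, j (m'.opp d) = m.opp (j d)) →
        (Set.range j = D1 → j o' = o → m'.IsQuad o' N1 κ) ∧
        (Set.range j = D1ᶜ → j o' = (m.face ^ l) o → m'.IsQuad o' N2 (P - κ)))

open Classical in
/-- number of inner faces on the two sides of a pinch point: the side of `o` has `N1` inner faces -/
def Pinch {D : Type} (m : RMap D) (o : D) (κ N1 : ℕ) : Prop :=
  m.tail o = m.tail ((m.face ^ (2 * κ)) o) ∧
  ∃ D1 : Set D, o ∈ D1 ∧ (m.face ^ (2 * κ)) o ∉ D1 ∧ Nat.card D1 = 4 * N1 + 2 * κ ∧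
    (∀ d, m.opp d ∈ D1 ↔ d ∈ D1) ∧
    (∀ d, (cut m (Equiv.swap o ((m.face ^ (2 * κ)) o))).rot d ∈ D1 ↔ d ∈ D1)

/-- A11: counting the pinch points -/
def ST_A11 : Prop :=
  ∀ (N P κ N1 : ℕ), 1 ≤ κ → κ < P → N1 ≤ N →
    (Nat.card {x // x ∈ GQ N P ∧ Pinch x.1 x.2 κ N1} : ℝ) / (4 * N + 2 * P).factorial ≤
      (Nat.card {x // x ∈ GQ N1 κ} : ℝ) / (4 * N1 + 2 * κ).factorial *
      ((Nat.card {x // x ∈ GQ (N - N1) (P - κ)} : ℝ) / (4 * (N - N1) + 2 * (P - κ)).factorial)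

/-- position `i` is bad: it is in a long dangling arc -/
def BadPos {D : Type} (m : RMap D) (o : D) (N P L : ℕ) (i : ℤ) : Prop :=
  ∃ (a : ℤ) (κ N1 : ℕ), L ≤ κ ∧ 1 ≤ κ ∧ κ < P ∧ a ≤ i ∧ i < a + 2 * κ ∧ N1 ≤ N ∧
    N ≤ 2 * P * (N - N1) ∧ Pinch m ((m.face ^ a) o) κ N1

/-- A12: deterministic: if few positions are bad, there is a component with many faces and a long
boundary -/
def ST_A12 : Prop :=
  ∀ (D : Type) [Finite D] (m : RMap D) (o : D) (N P L : ℕ) (ρ : Equiv.Perm D), 1 ≤ P → 1 ≤ L →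
    m.IsQuad o N P → IsRet m.rot (outer m o) ρ →
    Nat.card {i : Fin (2 * P) // BadPos m o N P L (i : ℕ)} ≤ P →
    ∃ n p : ℕ, N ≤ 2 * P * n ∧ P ≤ 2 * (1 + 2 * L) * p ∧
      P ≤ (1 + 2 * L) * Nat.card {i : Fin (2 * P) // ∃ (D' : Type) (_ : Finite D') (m' : RMap D')
        (j : D' → D) (o' : D'), Function.Injective j ∧
        (∀ d, j (m'.rot d) = (cut m ρ).rot (j d)) ∧ (∀ d, j (m'.opp d) = m.opp (j d)) ∧
        m'.Conn ∧ j o' = (m.face ^ (i : ℕ)) o ∧ m'.IsQuad o' n p}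

/-- A13: the expected number of bad positions is small (`uu` is the number of maps up to a factorial) -/
def ST_A13 : Prop :=
  (∀ N P, 1 ≤ P → (Nat.card {x // x ∈ GQ N P} : ℝ) = (4 * N + 2 * P).factorial * uu N P) →
  ∃ L P0 : ℕ, 1 ≤ L ∧ 1 ≤ P0 ∧ ∀ P, P0 ≤ P → ∀ᶠ N in atTop,
    ∑ i ∈ Finset.range (2 * P), (Nat.card {x // x ∈ GQ N P ∧ BadPos x.1 x.2 N P L i} : ℝ) ≤
      P / 2 * Nat.card {x // x ∈ GQ N P}

/-- A14: with positive probability the core of the root is large -/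
def ST_A14 : Prop :=
  (∀ N P, 1 ≤ P → (Nat.card {x // x ∈ GQ N P} : ℝ) = (4 * N + 2 * P).factorial * uu N P) →
  ∃ (c : ℝ) (P0 : ℕ), 0 < c ∧ 1 ≤ P0 ∧ ∀ P, P0 ≤ P → ∀ᶠ N in atTop,
    c * Nat.card {x // x ∈ GQ N P} ≤
      Nat.card {x // x ∈ GQ N P ∧ ∃ (n p : ℕ), 1 ≤ p ∧ p ≤ P ∧ n ≤ N ∧ N ≤ 2 * P * n ∧ c * P ≤ p ∧
        ∃ y ∈ SQ n p, ∃ j : Fin (4 * n + 2 * p) → Fin (4 * N + 2 * P), IsCore y.1 y.2 x.1 x.2 j}

/-- Interface of block A -/
def ST_A : Prop :=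
  (∀ N P, 1 ≤ P → (Nat.card {x // x ∈ GQ N P} : ℝ) = (4 * N + 2 * P).factorial * uu N P) →
  ∃ (c : ℝ) (P0 : ℕ), 0 < c ∧ 1 ≤ P0 ∧ ∀ P, P0 ≤ P → ∀ᶠ N in atTop,
    ∃ (I : Finset (ℕ × ℕ)) (w : ℕ × ℕ → ℝ),
      (∀ i ∈ I, 0 ≤ w i ∧ N ≤ 2 * P * i.1 ∧ c * P ≤ i.2 ∧ 1 ≤ i.2 ∧ i.2 ≤ P ∧ (SQ i.1 i.2).Nonempty) ∧
      c ≤ ∑ i ∈ I, w i ∧
      ∀ X : (D : Type) → RMap D → D → ℝ, (∀ D m o, 0 ≤ X D m o) →
        (∀ (D D' : Type) [Finite D] [Finite D'] (m' : RMap D') (o' : D') (m : RMap D) (o : D),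
          Emb m' o' m o → X D' m' o' ≤ X D m o) →
        ∑ i ∈ I, w i * avS i.1 i.2 X ≤ avG N P X

end

end QR
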