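import Pool.Agent.Helper98.QR.Codes

/-!
# Block C: generating functions of labelled trees and closed walks (rows)
-/

namespace QR

noncomputable section

open Filter Topology PowerSeries

/-! ## Definitions -/

/-- constant weight `1` -/
def one : ℤ → ℝ := fun _ => 1
/-- positive labels only -/
def pos : ℤ → ℝ := fun x => if 1 ≤ x then 1 else 0
/-- corners with label `1` get the weight `13 / 12` -/
def dg : ℤ → ℝ := fun x => if x = 1 then 13 / 12 else 1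
/-- labels `≥ j` only, labels `≤ r` are damped by `1 - κ` -/
def dmp (κ : ℝ) (r j : ℤ) : ℤ → ℝ := fun x => if x < j then 0 else if x ≤ r then 1 - κ else 1

/-- generating series of the trees with root label `l` -/
def TS (ω θ : ℤ → ℝ) (l : ℤ) : PowerSeries ℝ :=
  PowerSeries.mk (fun n => (1 / 12 : ℝ) ^ n * ∑ᶠ (t : LT) (_ : t.edges = n), t.W ω θ l)

/-- generating series of the codes whose closed walk has minimum `k` -/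
def CS (ω θ : ℤ → ℝ) (P : ℕ) (k : ℤ) : PowerSeries ℝ :=
  PowerSeries.mk (fun N => (1 / 12 : ℝ) ^ N * ∑ᶠ (c : Code P) (_ : c.Min k ∧ c.size = N), c.W ω θ)

/-- closed walks of period `2 P` with minimum `k` -/
def Brd (P : ℕ) (k : ℤ) : Set (ℤ → ℤ) :=
  {b | (∀ i, b (i + 1) = b i + 1 ∨ b (i + 1) = b i - 1) ∧ (∀ i, b (i + 2 * P) = b i) ∧
    (∀ i, k ≤ b i) ∧ ∃ i, b i = k}

/-- total mass -/
def tot (a : PowerSeries ℝ) : ℝ := ∑' n, coeff n a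

/-- tail -/
def tl (a : PowerSeries ℝ) (M : ℕ) : ℝ := ∑' n, coeff (n + M) a

/-- nonnegative summable coefficients -/
def NS (a : PowerSeries ℝ) : Prop := (∀ n, 0 ≤ coeff n a) ∧ Summable (fun n => coeff n a)

/-- asymptotic tail bound `c M ^ (-3/2)` -/
def TL (a : PowerSeries ℝ) (c : ℝ) : Prop :=
  NS a ∧ ∀ ε > 0, ∀ᶠ M : ℕ in atTop, tl a M ≤ (c + ε) * (M : ℝ) ^ (-(3 / 2) : ℝ)

/-- best constant in `TL` -/
def tau (a : PowerSeries ℝ) : ℝ := sInf {c | 0 ≤ c ∧ TL a c}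

/-- tail domination -/
def TLe (a b : PowerSeries ℝ) : Prop := NS a ∧ NS b ∧ ∀ M, tl a M ≤ tl b M

/-- total mass of the positive trees with root label `l` -/
def Aw (l : ℤ) : ℝ := 2 * l * (l + 3) / ((l + 1) * (l + 2))

/-- third Taylor coefficient -/
def H3 (l : ℤ) : ℝ :=
  l * (l + 3) * (5 * l ^ 4 + 30 * l ^ 3 + 59 * l ^ 2 + 42 * l + 4) / (35 * (l + 1) * (l + 2))

/-- the polynomials `Q_l` -/
def Qf (z : ℝ) : ℕ → ℝ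
  | 0 => 1
  | 1 => z + 3
  | n + 2 => (z + 2) * Qf z (n + 1) - Qf z n + 1

/-- generating function of the positive trees with root label `l` at `(1 - y ^ 2)` -/
def Gf (y : ℝ) (l : ℕ) : ℝ := 2 / (1 + y) * (1 - 1 / Qf (6 * y / (1 - y)) l)

/-- the walk constant -/
def Kst (P : ℕ) (k : ℤ) : ℝ :=
  ∑ᶠ b ∈ Brd P k, (∑ i ∈ dn P b, ((b i : ℝ) + 1) ^ 4) * ∏ i ∈ dn P b, Aw (b i)

/-- weighted excursions (Dyck paths) above level `h`: first return decomposition -/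
def ex : ℕ → ℕ → ℝ
  | 0, _ => 1
  | P + 1, h => ∑ i : Fin (P + 1), Aw (h + 1) * ex i (h + 1) * ex (P - i) h

/-- the same with one marked down-step, which gets the weight `(b + 1) ^ 4` -/
def sx : ℕ → ℕ → ℝ
  | 0, _ => 0
  | P + 1, h => ∑ i : Fin (P + 1), Aw (h + 1) * ((h + 2 : ℝ) ^ 4 * ex i (h + 1) * ex (P - i) h +
      sx i (h + 1) * ex (P - i) h + ex i (h + 1) * sx (P - i) h)

/-- difference series: trees with labels `≥ 1` in which the label `1` occurs -/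
def DD (κ : ℝ) (r : ℤ) (l : ℤ) : PowerSeries ℝ :=
  TS one (dmp κ r 1) l - (if 2 ≤ l then TS one (dmp κ r 2) l else 0)

/-- codes with a small ball -/
def BS (t P : ℕ) (k : ℤ) : PowerSeries ℝ :=
  PowerSeries.mk (fun N => (1 / 12 : ℝ) ^ N * (Nat.card {c : Code P //
    c.Min k ∧ c.size = N ∧ c.Pos ∧ 1 ≤ c.cor 1 ∧ c.low (4 * t ^ 16) < t ^ 56} : ℝ))

/-! ## Rows -/

/-- C01: finiteness -/
def ST_C01 : Prop :=
  (∀ n, {t : LT | t.edges = n}.Finite) ∧ (∀ (P : ℕ) (k : ℤ), 1 ≤ P → (Brd P k).Finite) ∧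
  (∀ (P N : ℕ) (k : ℤ), 1 ≤ P → {c : Code P | c.Min k ∧ c.size = N}.Finite)

/-- C02: recursion for the tree series -/
def ST_C02 : Prop :=
  ∀ (ω θ : ℤ → ℝ) (l : ℤ), TS ω θ l = C (ω l) * (1 + C (1 / 12) * X *
    (C (θ (l - 1)) * TS ω θ (l - 1) + C (θ l) * TS ω θ l + C (θ (l + 1)) * TS ω θ (l + 1)) * TS ω θ l)

/-- C03: codes are products of trees -/
def ST_C03 : Prop :=
  ∀ (ω θ : ℤ → ℝ) (P : ℕ) (k : ℤ), 1 ≤ P →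
    CS ω θ P k = ∑ᶠ b ∈ Brd P k, ∏ i ∈ dn P b, TS ω θ (b i)

open Classical in
/-- C04: meaning of the weights (`pos`, damped, degree) -/
def ST_C04 : Prop :=
  (∀ (t : LT) (l : ℤ), t.W one pos l = if t.ge 1 l then 1 else 0) ∧
  (∀ (t : LT) (l : ℤ) (κ : ℝ) (r j : ℤ), t.W one (dmp κ r j) l =
    if t.ge j l then (1 - κ) ^ (t.low r l) else 0) ∧
  (∀ (t : LT) (l : ℤ), t.W dg pos l = if t.ge 1 l then (13 / 12 : ℝ) ^ (t.cor 1 l) else 0) ∧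
  (∀ (t : LT) (l k : ℤ), t.ge (k + 1) (l + 1) ↔ t.ge k l) ∧
  (∀ (t : LT) (l k : ℤ), t.ge (k + 1) l → t.ge k l) ∧
  (∀ (t : LT) (l : ℤ), 2 ≤ l → t.ge 1 l → (t.cor 1 l = 0 ↔ t.ge 2 l))

/-- C05: minimality (the total mass of the tree series is below every supersolution) -/
def ST_C05 : Prop :=
  ∀ (ω θ U : ℤ → ℝ), (∀ l, 0 ≤ ω l) → (∀ l, 0 ≤ θ l) → (∀ l < 1, θ l = 0) → (∀ l, 0 ≤ U l) →
    (∀ l, 1 ≤ l → ω l * (1 + 1 / 12 * (θ (l - 1) * U (l - 1) + θ l * U l + θ (l + 1) * U (l + 1)) * U l)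
      ≤ U l) →
    ∀ l, 1 ≤ l → NS (TS ω θ l) ∧ tot (TS ω θ l) ≤ U l

/-- C06: the functions `G` -/
def ST_C06 : Prop :=
  ∀ y : ℝ, 0 ≤ y → y < 1 → (∀ l, 1 ≤ Qf (6 * y / (1 - y)) l) ∧ Gf y 0 = 0 ∧
    (∀ l, 0 ≤ Gf y l ∧ Gf y l ≤ 2 / (1 + y)) ∧
    (∀ l, Gf y (l + 1) = 1 + (1 - y ^ 2) / 12 * (Gf y l + Gf y (l + 1) + Gf y (l + 2)) * Gf y (l + 1)) ∧
    (∀ l : ℕ, Gf 0 l = Aw l)

/-- C07: exact generating function of the positive trees -/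
def ST_C07 : Prop :=
  ∀ (y : ℝ) (l : ℕ), 0 ≤ y → y < 1 → 1 ≤ l →
    HasSum (fun n => coeff n (TS one pos l) * (1 - y ^ 2) ^ n) (Gf y l)

/-- C08: Taylor expansion -/
def ST_C08 : Prop :=
  ∀ l : ℕ, ∃ h2 K : ℝ, ∀ y : ℝ, 0 ≤ y → y ≤ 1 / 2 →
    |Gf y l - (Aw l + h2 * y ^ 2 + H3 l * y ^ 3)| ≤ K * y ^ 4

/-- C09: one-sided Tauberian bound (second difference in `λ`, `y ^ 2 = 1 - exp (-λ)`) -/
def ST_C09 : Prop :=
  ∀ (a : PowerSeries ℝ) (A0 h2 h3 K : ℝ), NS a →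
    (∀ y : ℝ, 0 ≤ y → y ≤ 1 / 2 →
      |(∑' n, coeff n a * (1 - y ^ 2) ^ n) - (A0 + h2 * y ^ 2 + h3 * y ^ 3)| ≤ K * y ^ 4) →
    TL a (8 * |h3|)

/-- C10: the positive trees -/
def ST_C10 : Prop :=
  (∀ l : ℤ, 1 ≤ l → TL (TS one pos l) (4 * ((l : ℝ) + 1) ^ 4) ∧ tot (TS one pos l) = Aw l) ∧
  (∀ l : ℤ, 2 ≤ l → TL (TS one pos l - TS one pos (l - 1)) (8 * ((l : ℝ) + 1) ^ 3) ∧
    tot (TS one pos l - TS one pos (l - 1)) = 8 / ((l : ℝ) * (l + 1) * (l + 2)))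

/-- C11: rules for `TL`, part 1 -/
def ST_C11 : Prop :=
  (∀ a b c d, TL a c → TL b d → TL (a + b) (c + d)) ∧
  (∀ (x : ℝ) a c, 0 ≤ x → TL a c → TL (C x * a) (x * c)) ∧
  (∀ a c, TL a c → TL (X * a) c) ∧
  (∀ a b c, (∀ n, 0 ≤ coeff n a) → (∀ n, coeff n a ≤ coeff n b) → TL b c → TL a c) ∧
  (∀ a c c', TL a c → c ≤ c' → TL a c') ∧
  (∀ a c, 0 ≤ c → TL a c → TL a (tau a) ∧ 0 ≤ tau a ∧ tau a ≤ c) ∧
  TL 0 0 ∧ TL 1 0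

/-- C12: rules for `TL`, products -/
def ST_C12 : Prop :=
  (∀ a b, NS a → NS b → NS (a * b) ∧ tot (a * b) = tot a * tot b) ∧
  (∀ a b c d, 0 ≤ c → 0 ≤ d → TL a c → TL b d → TL (a * b) (c * tot b + tot a * d))

open Classical in
/-- C13: rules for `TL`, finite products and sums -/
def ST_C13 : Prop :=
  (∀ (s : Finset ℤ) (a : ℤ → PowerSeries ℝ) (c A : ℤ → ℝ), (∀ i ∈ s, 0 ≤ c i) →
    (∀ i ∈ s, TL (a i) (c i)) → (∀ i ∈ s, tot (a i) ≤ A i) →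
    TL (∏ i ∈ s, a i) (∑ i ∈ s, c i * ∏ j ∈ s.erase i, A j) ∧
    tot (∏ i ∈ s, a i) ≤ ∏ i ∈ s, A i) ∧
  (∀ (S : Set (ℤ → ℤ)) (a : (ℤ → ℤ) → PowerSeries ℝ) (c : (ℤ → ℤ) → ℝ), S.Finite →
    (∀ b ∈ S, TL (a b) (c b)) → TL (∑ᶠ b ∈ S, a b) (∑ᶠ b ∈ S, c b))

/-- C14: tail bound for the codes (tube volume) -/
def ST_C14 : Prop :=
  ∀ (P : ℕ) (k : ℤ), 1 ≤ P → 0 ≤ k → TL (CS one pos P k) (4 * Kst P k)

/-- C15: rules for tail domination -/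
def ST_C15 : Prop :=
  (∀ a b a' b', TLe a a' → TLe b b' → TLe (a + b) (a' + b')) ∧
  (∀ a b a' b', TLe a a' → TLe b b' → TLe (a * b) (a' * b')) ∧
  (∀ a b, NS b → (∀ n, 0 ≤ coeff n a) → (∀ n, coeff n a ≤ coeff n b) → TLe a b) ∧
  (∀ a b, NS b → (∀ n, 0 ≤ coeff n a) →
    (∀ (K M : ℕ), ∑ n ∈ Finset.Ico M K, coeff n a ≤ tl b M) → TLe a b)

/-- C16: degree weights are dominated by the shift -/
def ST_C16 : Prop :=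
  ∀ l : ℤ, 1 ≤ l → TLe (TS dg pos l) (TS one pos (l + 1))

/-- C17: degree weights for codes -/
def ST_C17 : Prop :=
  ∀ (P : ℕ) (k : ℤ), 1 ≤ P → 0 ≤ k → TLe (CS dg pos P k) (CS one pos P (k + 1))

/-- C20: damping lowers the mass -/
def ST_C20 : Prop :=
  ∀ (κ : ℝ) (r : ℤ), 0 < κ → κ ≤ 1 / 16 → 1 ≤ r → 1 / (r : ℝ) ^ 2 ≤ Real.sqrt κ →
    ∀ l : ℤ, 1 ≤ l → NS (TS one (dmp κ r 1) l) ∧
      tot (TS one (dmp κ r 1) l) ≤ Aw l ∧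
      (l ≤ r → tot (TS one (dmp κ r 1) l) ≤ 2 * (1 - Real.sqrt κ / 2 * (1 - ((l : ℝ) / r) ^ 2)))

/-- C21: recursion and elementary bounds for the difference series -/
def ST_C21 : Prop :=
  ∀ (κ : ℝ) (r : ℤ), 0 < κ → κ < 1 → 1 ≤ r →
    (∀ l : ℤ, 2 ≤ l → DD κ r l = C (1 / 12) * X * TS one (dmp κ r 1) l * TS one (dmp κ r 2) l *
      (C (dmp κ r 1 (l - 1)) * DD κ r (l - 1) + C (dmp κ r 1 l) * DD κ r l +
        C (dmp κ r 1 (l + 1)) * DD κ r (l + 1))) ∧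
    (∀ l : ℤ, 1 ≤ l → NS (DD κ r l) ∧ tot (DD κ r l) ≤ 8 / ((l : ℝ) * (l + 1) * (l + 2)) ∧
      TL (DD κ r l) (8 * ((l : ℝ) + 1) ^ 3)) ∧
    (∀ l : ℤ, 1 ≤ l → ∀ j ∈ ({1, 2} : Set ℤ), j ≤ l → NS (TS one (dmp κ r j) l) ∧
      (∀ n, coeff n (TS one (dmp κ r j) l) ≤ coeff n (TS one pos (l - j + 1))) ∧
      tot (TS one (dmp κ r 2) l) ≤ tot (TS one (dmp κ r 1) l))

/-- C22: comparison on a finite interval -/
def ST_C22 : Prop :=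
  ∀ (c e u v : ℤ → ℝ) (l0 l1 : ℤ), (∀ l, 0 ≤ c l) → (∀ l, c l < 1 / 3) →
    (∀ l, l0 < l → l < l1 → u l ≤ c l * (u (l - 1) + u l + u (l + 1)) + e l) →
    (∀ l, l0 < l → l < l1 → c l * (v (l - 1) + v l + v (l + 1)) + e l ≤ v l) →
    u l0 ≤ v l0 → u l1 ≤ v l1 → ∀ l, l0 ≤ l → l ≤ l1 → u l ≤ v l

/-- C23: comparison on a half line: `w` is a positive strict supersolution and `u - v = o(w)` -/
def ST_C23 : Prop :=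
  ∀ (c e u v w : ℤ → ℝ) (l0 : ℤ), (∀ l, 0 ≤ c l) → (∀ l, 0 < w l) →
    (∀ l, l0 < l → c l * (w (l - 1) + w l + w (l + 1)) < w l) →
    (∀ l, l0 < l → u l ≤ c l * (u (l - 1) + u l + u (l + 1)) + e l) →
    (∀ l, l0 < l → c l * (v (l - 1) + v l + v (l + 1)) + e l ≤ v l) →
    (∀ ε > 0, ∃ L, ∀ l, L ≤ l → u l - v l ≤ ε * w l) →
    u l0 ≤ v l0 → ∀ l, l0 ≤ l → u l ≤ v l

/-- C24: total mass of the difference series with damping `κ = t ^ (-56)`, `r = 4 t ^ 16` -/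
def ST_C24 : Prop :=
  ∀ (t : ℕ) (l : ℤ), 2 ≤ t → 2 * (t : ℤ) ^ 16 ≤ l →
    tot (DD (1 / (t : ℝ) ^ 56) (4 * t ^ 16) l) ≤
      3 * Real.exp (-(t : ℝ) ^ 2 / 4) * (2 * (t : ℝ) ^ 16 + 2) ^ 3 / (l : ℝ) ^ 3

/-- C25: tail constant of the difference series -/
def ST_C25 : Prop :=
  ∀ A : ℕ, ∃ K : ℝ, ∀ (t : ℕ) (l : ℤ), 2 ≤ t → 4 * (t : ℤ) ^ 16 ≤ l →
    TL (DD (1 / (t : ℝ) ^ 56) (4 * t ^ 16) l) (K / (t : ℝ) ^ A * ((l : ℝ) + 1) ^ 3)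

/-- C26: marks of weight `b ^ (-3)` can be absorbed by a shift -/
def ST_C26 : Prop :=
  ∀ (P : ℕ) (k : ℤ), 1 ≤ P → 0 ≤ k →
    ∑ᶠ b ∈ Brd P k, (∑ i ∈ dn P b, 1 / (b i : ℝ) ^ 3) * (∑ i ∈ dn P b, ((b i : ℝ) + 1) ^ 4) *
      ∏ i ∈ dn P b, Aw (b i) ≤ 6 * Kst P (k + 1)

/-- C27: codes with a small ball are rare -/
def ST_C27 : Prop :=
  ∀ A : ℕ, ∃ K : ℝ, ∀ (t P : ℕ) (k : ℤ), 2 ≤ t → 1 ≤ P → 4 * (t : ℤ) ^ 16 ≤ k →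
    TL (BS t P k) (K / (t : ℝ) ^ A * (Kst P k + Kst P (k + 1)))

/-- C30: rotation of the closed walks -/
def ST_C30 : Prop :=
  ∀ (P h : ℕ), 1 ≤ P → Kst P (h : ℤ) ≤ 2 * P * sx P h

/-- C31: bounds for the excursions -/
def ST_C31 : Prop :=
  ∀ (w : ℝ) (n h : ℕ), 0 ≤ w → w < 1 →
    ∑ P ∈ Finset.range n, ex P h * ((1 - w ^ 2) / 8) ^ P ≤ 2 / (1 + w) ∧
    ∑ P ∈ Finset.range n, ex P h * ((1 - w ^ 2) / 8) ^ P ≤ (2 * (h + 2) / (h + 3) : ℝ)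

/-- C32: bound for the marked excursions -/
def ST_C32 : Prop :=
  ∃ K : ℝ, 0 < K ∧ ∀ (w : ℝ) (n h : ℕ), 0 < w → w * (h + 2) ≤ 1 →
    ∑ P ∈ Finset.range n, sx P h * ((1 - w ^ 2) / 8) ^ P ≤ K * (h + 2) ^ 2 / w ^ 3

/-- C33: the walk constants on average -/
def ST_C33 : Prop :=
  ∃ K : ℝ, 0 < K ∧ ∀ (h Q : ℕ), (h + 2) ^ 2 ≤ Q →
    ∑ P ∈ Finset.Icc 1 Q, Kst P (h : ℤ) / (8 ^ P * P) ≤ K * (h + 2) ^ 2 * (Q : ℝ) ^ (3 / 2 : ℝ)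

end

end QR
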