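import Pool.Agent.Helper98.QR.IfaceB
import Pool.Agent.Helper98.QR.StmtsC
import Pool.Agent.Helper98.QR.StmtsT
import Pool.Agent.Helper98.QR.StmtsA

/-!
# Block S: estimates for quadrangulations with a simple boundary
-/

namespace QR

noncomputable section

open Filter Topology

/-- the vertex `v` is at distance at most `r` from the boundary -/
def NB {D : Type} (m : RMap D) (o : D) (r : ℕ) (v : m.Vert) : Prop :=
  ∃ i : ℤ, SPR.Near m.mult r (m.tail ((m.face ^ i) o)) v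

/-- volume of the tube of radius `h` around the boundary -/
def Ftube (h : ℕ) (D : Type) (m : RMap D) (o : D) : ℝ := Nat.card {v : m.Vert // NB m o h v}

/-- exponential moment of the degrees in the tube -/
def Fdeg (h : ℕ) (D : Type) (m : RMap D) (o : D) : ℝ :=
  ∑ᶠ (v : m.Vert) (_ : NB m o h v), (13 / 12 : ℝ) ^ (SPR.deg m.mult v)

/-- number of vertices of the tube, at distance at least `4 t ^ 16` of the boundary, with a small ball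
of radius `4 t ^ 16` -/
def Fbad (t h : ℕ) (D : Type) (m : RMap D) (o : D) : ℝ :=
  Nat.card {v : m.Vert // NB m o h v ∧ ¬ NB m o (4 * t ^ 16 - 1) v ∧
    Nat.card {u // SPR.Near m.mult (4 * t ^ 16) v u} ≤ t ^ 56}

/-- the radius of the tube for the net at scale `t` -/
def hh (t : ℕ) : ℕ := t ^ 35 + 4 * t ^ 16

/-- the combined functional -/
def YY (T : ℕ) (D : Type) (m : RMap D) (o : D) : ℝ :=
  ∑ t ∈ Finset.Icc 1 T, (1 / (t : ℝ) ^ 2) * (Ftube (hh t) D m o / ((hh t : ℝ) + 2) ^ 2) +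
  ∑ t ∈ Finset.Icc 2 T, (1 / (t : ℝ) ^ 2) * ((t : ℝ) ^ 200 * Fbad t (hh t) D m o) +
  ∑ h ∈ Finset.Icc 1 T, (1 / (h : ℝ) ^ 2) * (Fdeg h D m o / ((h : ℝ) + 3) ^ 3)

/-- S01: the multigraph of a map -/
def ST_S01 : Prop :=
  ∀ (D : Type) [Finite D] (m : RMap D),
    (∀ x y, m.mult x y = m.mult y x) ∧
    (∀ r x y, SPR.Near m.mult r x y → SPR.Near m.mult r y x) ∧
    (∀ r s x y z, SPR.Near m.mult r x y → SPR.Near m.mult s y z → SPR.Near m.mult (r + s) x z) ∧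
    (∀ x, SPR.deg m.mult x = Nat.card {d // m.tail d = x}) ∧
    (∀ d, m.mult (m.tail d) (m.tail (m.opp d)) ≠ 0) ∧
    (∀ x y, m.mult x y ≠ 0 ↔ ∃ d, m.tail d = x ∧ m.tail (m.opp d) = y) ∧
    (m.Conn → ∀ x y, ∃ r, SPR.Near m.mult r x y)

/-- S02: the tube in terms of codes -/
def ST_S02 : Prop :=
  ∀ N P h : ℕ, 1 ≤ P → ∑ᶠ (x) (_ : x ∈ GQ N P), Ftube h _ x.1 x.2 ≤
    (4 * N + 2 * P).factorial * 12 ^ N * PowerSeries.coeff N (CS one pos P h)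

/-- S03: the degrees in terms of codes -/
def ST_S03 : Prop :=
  ∀ N P h : ℕ, 1 ≤ P → ∑ᶠ (x) (_ : x ∈ GQ N P), Fdeg h _ x.1 x.2 ≤
    (4 * N + 2 * P).factorial * 12 ^ N *
      ∑ k ∈ Finset.range (h + 1), PowerSeries.coeff N (CS dg pos P k)

/-- S04: the vertices with small balls in terms of codes -/
def ST_S04 : Prop :=
  ∀ N P t h : ℕ, 1 ≤ P → 2 ≤ t → ∑ᶠ (x) (_ : x ∈ GQ N P), Fbad t h _ x.1 x.2 ≤
    (4 * N + 2 * P).factorial * 12 ^ N *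
      ∑ k ∈ Finset.Icc (4 * t ^ 16) h, PowerSeries.coeff N (BS t P k)

/-- S05: from tail constants to averages over `N` -/
def ST_S05 : Prop :=
  ∃ K : ℝ, 0 < K ∧ ∀ (P : ℕ) (F : ℕ → ℝ) (a : PowerSeries ℝ) (c : ℝ), 1 ≤ P → 0 ≤ c →
    (∀ N, 0 ≤ F N) → (∀ N, F N ≤ (4 * N + 2 * P).factorial * 12 ^ N * PowerSeries.coeff N a) →
    (∀ n, 0 ≤ PowerSeries.coeff n a) → Summable (fun n => PowerSeries.coeff n a) →
    (∀ ε > 0, ∀ᶠ M : ℕ in atTop, tl a M ≤ (c + ε) * (M : ℝ) ^ (-(3 / 2) : ℝ)) →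
    ∀ ε > 0, ∀ᶠ M : ℕ in atTop,
      1 / M * ∑ N ∈ Finset.Ico M (2 * M), F N / (Nat.card {x // x ∈ GQ N P} : ℝ) ≤
        K * c / (8 ^ P * Real.sqrt P) + ε

/-- S06: the combined functional, average over `N` and `P` -/
def ST_S06 : Prop :=
  ∃ K : ℝ, 0 < K ∧ ∀ T : ℕ, ∀ᶠ Q : ℕ in atTop, ∀ᶠ M : ℕ in atTop,
    1 / (Q * M : ℝ) * ∑ P ∈ Finset.Ioc Q (2 * Q), ∑ N ∈ Finset.Ico M (2 * M),
      avG N P (YY T) / P ≤ K

/-- S07: monotonicity -/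
def ST_S07 : Prop :=
  ∀ (T : ℕ), (∀ D m o, 0 ≤ YY T D m o) ∧
    ∀ (D D' : Type) [Finite D] [Finite D'] (m' : RMap D') (o' : D') (m : RMap D) (o : D),
      Emb m' o' m o → YY T D' m' o' ≤ YY T D m o

/-- S08: good sizes for the simple boundary -/
def ST_S08 : Prop :=
  ∃ K : ℝ, 0 < K ∧ ∀ (T p0 : ℕ) (n0 : ℕ → ℕ), ∃ p n : ℕ, p0 ≤ p ∧ 1 ≤ p ∧ n0 p ≤ n ∧
    (SQ n p).Nonempty ∧ avS n p (YY T) ≤ K * p

open Classical in
/-- S09: nets -/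
def ST_S09 : Prop :=
  ∀ (D : Type) [Finite D] (m : RMap D) (o : D) (n p t : ℕ), 1 ≤ p → 1 ≤ t → m.IsQuad o n p →
    ∃ Net : Set m.Vert, (∀ v, NB m o (t ^ 35) v → ∃ z ∈ Net, SPR.Near m.mult (t ^ 17) v z) ∧
      (t < 8 → (Nat.card Net : ℝ) ≤ Ftube (hh t) D m o) ∧
      (8 ≤ t → (Nat.card Net : ℝ) ≤ 2 * p + Ftube (hh t) D m o / (t : ℝ) ^ 56 + Fbad t (hh t) D m o)

/-- S10: interface of block S (exponents `b = 5`, `q = 35`, `j = 17`, `m = 16`) -/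
def ST_S : Prop :=
  ∃ K : ℝ, 0 < K ∧ ∀ (T p0 : ℕ) (n0 : ℕ → ℕ), ∃ p n : ℕ, p0 ≤ p ∧ 1 ≤ p ∧ n0 p ≤ n ∧
    (SQ n p).Nonempty ∧
    (∀ h : ℕ, 1 ≤ h → h ≤ T → avS n p (Fdeg h) ≤ K * h ^ 5 * p) ∧
    (∀ t : ℕ, 1 ≤ t → t ≤ T → ∃ NetCard : (D : Type) → RMap D → D → ℝ,
      avS n p NetCard ≤ K * t ^ 16 * p ∧
      ∀ x ∈ SQ n p, ∃ Net : Set x.1.Vert, (Nat.card Net : ℝ) ≤ NetCard _ x.1 x.2 ∧
        ∀ v, NB x.1 x.2 (t ^ 35) v → ∃ z ∈ Net, SPR.Near x.1.mult (t ^ 17) v z)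

end

end QR
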