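import Pool.Agent.Helper98.QR.IfaceD
import Pool.Agent.Helper98.QR.StmtsS
import Pool.Agent.Helper98.SPR.Stmts

/-!
# Block E: glueing, local limit, main theorem
-/

namespace QR

noncomputable section

open Filter Topology MeasureTheory

/-! ## Boundary graphs -/

/-- regular pair of boundary graphs: the glueing is well defined -/
structure RegP {V W : Type} (G : BGraph V) (G' : BGraph W) : Prop where
  symm1 : ∀ x y, G.c x y = G.c y x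
  symm2 : ∀ x y, G'.c x y = G'.c y x
  fin1 : ∀ x, (Function.support (G.c x)).Finite
  fin2 : ∀ x, (Function.support (G'.c x)).Finite
  adj1 : ∀ i, G.c (G.b i) (G.b (i + 1)) ≠ 0
  adj2 : ∀ i, G'.c (G'.b i) (G'.b (i + 1)) ≠ 0
  per1 : ∀ i j k : ℤ, G.b i = G.b j → G.b (i + k) = G.b (j + k)
  per2 : ∀ i j k : ℤ, G'.b i = G'.b j → G'.b (i + k) = G'.b (j + k)
  glue : ∀ i j : ℤ, G.b i = G.b j ↔ G'.b (1 - i) = G'.b (1 - j)

/-- finite data of a boundary graph -/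
abbrev FBd : Type := Σ K : ℕ, Σ L : ℕ, (Fin (K + 1) → Fin (K + 1) → ℕ) × (Fin (2 * L + 1) → Fin (K + 1))

/-- the boundary graph of finite data -/
def FBd.G (F : FBd) : BGraph (Fin (F.1 + 1)) where
  c := F.2.2.1
  b := fun i => if h : |i| ≤ (F.2.1 : ℤ) then F.2.2.2 ⟨(i + F.2.1).toNat, by
      have := abs_le.mp h; omega⟩ else F.2.2.2 ⟨F.2.1, by omega⟩

/-- E00: finiteness -/
def ST_E00 : Prop :=
  ∀ (D : Type) [Finite D], Finite (RMap D) ∧ ∀ m : RMap D, Finite m.Vert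

/-- E01: rules for `BIso` -/
def ST_E01 : Prop :=
  (∀ (r : ℕ) (V W U : Type) (G : BGraph V) (G' : BGraph W) (G'' : BGraph U),
    BIso r G G' → BIso r G' G'' → BIso r G G'') ∧
  (∀ (r s : ℕ) (V W : Type) (G : BGraph V) (G' : BGraph W), s ≤ r → BIso r G G' → BIso s G G') ∧
  (∀ (r : ℕ) (V : Type) (G : BGraph V), BIso r G G) ∧
  (∀ (r : ℕ) (V W : Type) (G : BGraph V) (G' : BGraph W), BIso r G G' →
    (∀ i : ℤ, |i| ≤ r → SPR.Near G.c r (G.b 0) (G.b i)) →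
    BIso r G' G ∧ ∀ i : ℤ, |i| ≤ r → SPR.Near G'.c r (G'.b 0) (G'.b i)) ∧
  (∀ (V : Type) (G : BGraph V), (∀ x y, G.c x y = G.c y x) → (∀ i, G.c (G.b i) (G.b (i + 1)) ≠ 0) →
    ∀ (r : ℕ) (i : ℤ), |i| ≤ r → SPR.Near G.c r (G.b 0) (G.b i)) ∧
  (∀ (r : ℕ) (V W : Type) (G : BGraph V) (G' : BGraph W) (e : V ≃ W),
    (∀ x y, G.c x y = G'.c (e x) (e y)) → (∀ i, e (G.b i) = G'.b i) → BIso r G G')

/-- E02: every locally finite boundary graph has finite balls, which are represented by finite data -/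
def ST_E02 : Prop :=
  ∀ (ρ : ℕ) (V : Type) (G : BGraph V), (∀ x y, G.c x y = G.c y x) →
    (∀ x, (Function.support (G.c x)).Finite) →
    ∃ F : FBd, BIso ρ G F.G ∧ ∀ i : ℤ, |i| ≤ ρ →
      (SPR.Near G.c ρ (G.b 0) (G.b i) ↔ SPR.Near F.G.c ρ (F.G.b 0) (F.G.b i))

/-- E03: measurability of the ball classes -/
def ST_E03 : Prop :=
  ∀ (Ω : Type) [MeasurableSpace Ω] (H : Ω → BGraph ℕ),
    (∀ x y, Measurable (fun ω => (H ω).c x y)) → (∀ i, Measurable (fun ω => (H ω).b i)) →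
    (∀ ω x, (Function.support ((H ω).c x)).Finite) →
    ∀ (ρ : ℕ) (F : FBd), MeasurableSet {ω | BIso ρ (H ω) F.G}

/-- E04: properties of balls of the finite maps pass to the half-plane -/
def ST_E04 : Prop :=
  ∀ (Ω : Type) [MeasurableSpace Ω] (P : Measure Ω) [IsProbabilityMeasure P] (H : Ω → BGraph ℕ),
    IsUIHPQ P H → ∀ (ρ : ℕ) (Z : (V : Type) → BGraph V → Prop),
    (∀ (V W : Type) (G : BGraph V) (G' : BGraph W), BIso ρ G G' →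
      (∀ i : ℤ, |i| ≤ ρ → (SPR.Near G.c ρ (G.b 0) (G.b i) ↔ SPR.Near G'.c ρ (G'.b 0) (G'.b i))) →
      (Z V G ↔ Z W G')) →
    (∀ᶠ p : ℕ in atTop, ∀ n, ∀ x ∈ SQ n p, Z _ (x.1.bg x.2)) →
    ∀ᵐ ω ∂P, Z ℕ (H ω)

/-- E05: finite maps are regular -/
def ST_E05 : Prop :=
  ∀ (n p : ℕ), 2 ≤ p → ∀ x ∈ SQ n p,
    (∀ i, (x.1.bg x.2).c ((x.1.bg x.2).b i) ((x.1.bg x.2).b (i + 1)) ≠ 0) ∧
    (∀ i j : ℤ, (x.1.bg x.2).b i = (x.1.bg x.2).b j ↔ (2 * (p : ℤ)) ∣ i - j) ∧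
    (∀ y ∈ SQ n p, RegP (x.1.bg x.2) (y.1.bg y.2))

/-- E06: the half-planes are regular almost surely -/
def ST_E06 : Prop :=
  ∀ (Ω : Type) [MeasurableSpace Ω] (P : Measure Ω) [IsProbabilityMeasure P] (H : Ω → BGraph ℕ),
    IsUIHPQ P H → ∀ᵐ x ∂(P.prod P), RegP (H x.1) (H x.2) ∧ Function.Injective (H x.1).b ∧
      Function.Injective (H x.2).b

open Classical in
/-- E07: the glueing of a regular pair: number of edges, symmetry, local finiteness -/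
def ST_E07 : Prop :=
  ∀ (V W : Type) (G : BGraph V) (G' : BGraph W), RegP G G' →
    (∀ i, gluePt G G' (G'.b (1 - i)) = Sum.inl (G.b i)) ∧
    (∀ w, w ∉ Set.range G'.b → gluePt G G' w = Sum.inr w) ∧
    (∀ x y, glueC G G' x y = glueC G G' y x) ∧
    (∀ x, (Function.support (glueC G G' x)).Finite) ∧
    (∀ u v, G.c u v ≤ glueC G G' (Sum.inl u) (Sum.inl v)) ∧
    (∀ w, w ∈ Set.range G'.b → ∀ x, glueC G G' (Sum.inr w) x = 0) ∧
    (∀ w w', w ∉ Set.range G'.b → w' ∉ Set.range G'.b →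
      glueC G G' (Sum.inr w) (Sum.inr w') = G'.c w w') ∧
    (∀ i w, w ∉ Set.range G'.b →
      glueC G G' (Sum.inl (G.b i)) (Sum.inr w) = G'.c (G'.b (1 - i)) w) ∧
    (∀ u w, u ∉ Set.range G.b → glueC G G' (Sum.inl u) (Sum.inr w) = 0) ∧
    (∀ u v, u ∉ Set.range G.b → glueC G G' (Sum.inl u) (Sum.inl v) = G.c u v) ∧
    (∀ i j, glueC G G' (Sum.inl (G.b i)) (Sum.inl (G.b j)) = G.c (G.b i) (G.b j) +
      (G'.c (G'.b (1 - i)) (G'.b (1 - j)) -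
        (if G.b (i + 1) = G.b j ∨ G.b (j + 1) = G.b i then 1 else 0)))

/-- E08: locality of the glueing -/
def ST_E08 : Prop :=
  ∀ (V W : Type) (G : BGraph V) (G' : BGraph W), RegP G G' → ∀ r : ℕ, ∃ ρ : ℕ,
    ∀ (V1 W1 : Type) (G1 : BGraph V1) (G1' : BGraph W1), RegP G1 G1' →
      BIso ρ G G1 → BIso ρ G' G1' →
      SPR.BallIso r (glueC G G') (Sum.inl (G.b 0)) (glueC G1 G1') (Sum.inl (G1.b 0))

/-- E09: `BallIso` is symmetric and transitive -/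
def ST_E09 : Prop :=
  (∀ (r : ℕ) (V W : Type) (c : V → V → ℕ) (x : V) (c' : W → W → ℕ) (x' : W),
    SPR.BallIso r c x c' x' → SPR.BallIso r c' x' c x) ∧
  (∀ (r : ℕ) (V W U : Type) (c : V → V → ℕ) (x : V) (c' : W → W → ℕ) (x' : W) (c'' : U → U → ℕ)
    (x'' : U), SPR.BallIso r c x c' x' → SPR.BallIso r c' x' c'' x'' → SPR.BallIso r c x c'' x'') ∧
  (∀ (r : ℕ) (V W : Type) (c : V → V → ℕ) (x : V) (c' : W → W → ℕ) (x' : W) (e : V ≃ W), e x = x' →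
    (∀ u v, c u v = c' (e u) (e v)) → SPR.BallIso r c x c' x')

/-! ## The finite graphs -/

/-- the glued multigraph of two maps -/
abbrev gl {D D' : Type} (m : RMap D) (o : D) (m' : RMap D') (o' : D') :
    m.Vert ⊕ m'.Vert → m.Vert ⊕ m'.Vert → ℕ := glueC (m.bg o) (m'.bg o')

/-- disjoint union of multigraphs -/
def sigC {ι : Type} {V : ι → Type} (c : ∀ i, V i → V i → ℕ) : (Σ i, V i) → (Σ i, V i) → ℕ :=
  fun x y => open Classical in if h : x.1 = y.1 then c y.1 (h ▸ x.2) y.2 else 0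

/-- E10: disc model of the glueing -/
def ST_E10 : Prop :=
  ∃ K : ℝ, 1 ≤ K ∧ ∀ (n p : ℕ), 1 ≤ n → 2 ≤ p → ∀ x ∈ SQ n p, ∀ y ∈ SQ n p,
    Nonempty (SPR.DiscModel K (gl x.1 x.2 y.1 y.2))

/-- E11: disc model of a disjoint union -/
def ST_E11 : Prop :=
  ∀ (K : ℝ) (ι : Type) [Finite ι] (V : ι → Type) [∀ i, Finite (V i)] (c : ∀ i, V i → V i → ℕ),
    1 ≤ K → (∀ i, Nonempty (SPR.DiscModel K (c i))) → Nonempty (SPR.DiscModel K (sigC c))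

/-- E12: multigraph facts for the disjoint union -/
def ST_E12 : Prop :=
  ∀ (ι : Type) [Finite ι] (V : ι → Type) [∀ i, Finite (V i)] (c : ∀ i, V i → V i → ℕ),
    (∀ i (u v : V i), sigC c ⟨i, u⟩ ⟨i, v⟩ = c i u v) ∧
    (∀ i j (u : V i) (v : V j), i ≠ j → sigC c ⟨i, u⟩ ⟨j, v⟩ = 0) ∧
    (∀ r i (u : V i) (x : Σ i, V i), SPR.Near (sigC c) r ⟨i, u⟩ x ↔
      ∃ v : V i, x = ⟨i, v⟩ ∧ SPR.Near (c i) r u v) ∧
    (∀ i (u : V i), SPR.deg (sigC c) ⟨i, u⟩ = SPR.deg (c i) u) ∧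
    (∀ (r : ℕ) i (u : V i) (W : Type) (c' : W → W → ℕ) (x' : W),
      SPR.BallIso r (sigC c) ⟨i, u⟩ c' x' ↔ SPR.BallIso r (c i) u c' x')

open Classical in
/-- E13: tubes, degrees and nets of the glueing -/
def ST_E13 : Prop :=
  ∀ (n p : ℕ), 1 ≤ n → 2 ≤ p → ∀ x ∈ SQ n p, ∀ y ∈ SQ n p,
    ∀ S : Finset (x.1.Vert ⊕ y.1.Vert), (∀ v, v ∈ S ↔ ∃ i : ℤ, v = Sum.inl ((x.1.bg x.2).b i)) →
    S.card = 2 * p ∧
    (∀ h : ℕ, ∑ᶠ (v) (_ : SPR.NearSet (gl x.1 x.2 y.1 y.2) h S v),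
      Real.exp (Real.log (13 / 12) / 2 * SPR.deg (gl x.1 x.2 y.1 y.2) v) ≤
      2 * (Fdeg h _ x.1 x.2 + Fdeg h _ y.1 y.2)) ∧
    (∀ (s r : ℕ) (N1 : Set x.1.Vert) (N2 : Set y.1.Vert),
      (∀ v, NB x.1 x.2 s v → ∃ z ∈ N1, SPR.Near x.1.mult r v z) →
      (∀ v, NB y.1 y.2 s v → ∃ z ∈ N2, SPR.Near y.1.mult r v z) →
      ∃ Net : Finset (x.1.Vert ⊕ y.1.Vert), Net.card ≤ Nat.card N1 + Nat.card N2 ∧
        ∀ v, SPR.NearSet (gl x.1 x.2 y.1 y.2) s S v → ∃ z ∈ Net,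
          SPR.Near (gl x.1 x.2 y.1 y.2) r v z)

/-- E14: rotation of the root -/
def ST_E14 : Prop :=
  ∀ (n p : ℕ), 2 ≤ p → ∀ (i : ℤ),
    (∀ x : RMap (Fin (4 * n + 2 * p)) × Fin (4 * n + 2 * p),
      x ∈ SQ n p ↔ (x.1, (x.1.face ^ i) x.2) ∈ SQ n p) ∧
    (∀ x ∈ SQ n p, ∀ l, (x.1.bg ((x.1.face ^ i) x.2)).b l = (x.1.bg x.2).b (l + i)) ∧
    (∀ x ∈ SQ n p, ∀ y ∈ SQ n p,
      gl x.1 ((x.1.face ^ i) x.2) y.1 ((y.1.face ^ (-i)) y.2) = gl x.1 x.2 y.1 y.2)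

/-- probability that the pair has the property `Z` -/
def prob2 (n p : ℕ) (Z : RMap (Fin (4 * n + 2 * p)) × Fin (4 * n + 2 * p) →
    RMap (Fin (4 * n + 2 * p)) × Fin (4 * n + 2 * p) → Prop) : ℝ :=
  (Nat.card {z : (RMap (Fin (4 * n + 2 * p)) × Fin (4 * n + 2 * p)) ×
      (RMap (Fin (4 * n + 2 * p)) × Fin (4 * n + 2 * p)) //
      z.1 ∈ SQ n p ∧ z.2 ∈ SQ n p ∧ Z z.1 z.2} : ℝ) / (Nat.card {x // x ∈ SQ n p} : ℝ) ^ 2

/-- E15: from the marginals to the glued pairs -/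
def ST_E15 : Prop :=
  ∀ (Ω : Type) [MeasurableSpace Ω] (P : Measure Ω) [IsProbabilityMeasure P] (H : Ω → BGraph ℕ),
    IsUIHPQ P H → ∀ (n p : ℕ → ℕ), (∀ k, (SQ (n k) (p k)).Nonempty) → Tendsto p atTop atTop →
    (∀ (r : ℕ) (F : FBd), Tendsto (fun k => prob (n k) (p k) (fun x => BIso r (x.1.bg x.2) F.G)) atTop
      (𝓝 (P {ω | BIso r (H ω) F.G}).toReal)) →
    ∀ (r N : ℕ) (F : Fin N → Fin N → ℕ) (o : Fin N),
      Tendsto (fun k => prob2 (n k) (p k) (fun x y =>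
        SPR.BallIso r (gl x.1 x.2 y.1 y.2) (Sum.inl ((x.1.bg x.2).b 0)) F o)) atTop
        (𝓝 ((P.prod P) {ω | SPR.BallIso r (glueC (H ω.1) (H ω.2)) (Sum.inl ((H ω.1).b 0)) F o}).toReal)

/-- E16: choice of the sizes (diagonal sequence) -/
def ST_E16 : Prop :=
  ∀ (Ω : Type) [MeasurableSpace Ω] (P : Measure Ω) [IsProbabilityMeasure P] (H : Ω → BGraph ℕ),
    IsUIHPQ P H → ∃ n0 : ℕ → ℕ → ℕ, ∀ (n p : ℕ → ℕ), (∀ k, k ≤ p k) → (∀ k, n0 k (p k) ≤ n k) →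
      ∀ (r : ℕ) (F : FBd),
        Tendsto (fun k => prob (n k) (p k) (fun x => BIso r (x.1.bg x.2) F.G)) atTop
          (𝓝 (P {ω | BIso r (H ω) F.G}).toReal)

/-- vertices of the disjoint union of all glued pairs -/
abbrev UV (n p : ℕ) : Type :=
  Σ z : {x // x ∈ SQ n p} × {x // x ∈ SQ n p}, z.1.1.1.Vert ⊕ z.2.1.1.Vert

/-- multigraph of the disjoint union of all glued pairs -/
def Uc (n p : ℕ) : UV n p → UV n p → ℕ :=
  sigC (fun z : {x // x ∈ SQ n p} × {x // x ∈ SQ n p} => gl z.1.1.1 z.1.1.2 z.2.1.1 z.2.1.2)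

/-- the glued boundary vertices -/
def US (n p : ℕ) : Set (UV n p) :=
  {v | ∃ i : ℤ, v.2 = Sum.inl ((v.1.1.1.1.bg v.1.1.1.2).b i)}

open Classical in
/-- E18: the frequencies in the disjoint union -/
def ST_E18 : Prop :=
  ∀ (n p : ℕ), 1 ≤ n → 2 ≤ p → (SQ n p).Nonempty → ∀ S : Finset (UV n p), (∀ v, v ∈ S ↔ v ∈ US n p) →
    S.card = (Nat.card {x // x ∈ SQ n p}) ^ 2 * (2 * p) ∧
    ∀ (r N : ℕ) (F : Fin N → Fin N → ℕ) (o : Fin N),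
      ((S.filter (fun w => SPR.BallIso r (Uc n p) w F o)).card : ℝ) / (S.card : ℝ) =
        prob2 n p (fun x y => SPR.BallIso r (gl x.1 x.2 y.1 y.2) (Sum.inl ((x.1.bg x.2).b 0)) F o)

open Classical in
/-- E19: estimates in the disjoint union -/
def ST_E19 : Prop :=
  ∀ (n p : ℕ) (K : ℝ), 1 ≤ n → 2 ≤ p → 0 ≤ K → (SQ n p).Nonempty → ∀ [Fintype (UV n p)],
    ∀ S : Finset (UV n p), (∀ v, v ∈ S ↔ v ∈ US n p) →
    (∀ h : ℕ, avS n p (Fdeg h) ≤ K * p →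
      ∑ v with SPR.NearSet (Uc n p) h S v, Real.exp (Real.log (13 / 12) / 2 * SPR.deg (Uc n p) v) ≤
        2 * K * S.card) ∧
    (∀ (s r : ℕ) (NetCard : (D : Type) → RMap D → D → ℝ), avS n p NetCard ≤ K * p →
      (∀ x ∈ SQ n p, ∃ Net : Set x.1.Vert, (Nat.card Net : ℝ) ≤ NetCard _ x.1 x.2 ∧
        ∀ v, NB x.1 x.2 s v → ∃ z ∈ Net, SPR.Near x.1.mult r v z) →
      ∃ Net : Finset (UV n p), (Net.card : ℝ) ≤ K * S.card ∧
        ∀ v, SPR.NearSet (Uc n p) s S v → ∃ z ∈ Net, SPR.Near (Uc n p) r v z)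

/-- E17: recurrence does not depend on the labelling of the vertices -/
def ST_E17 : Prop :=
  ∀ (V W : Type) (c : V → V → ℕ) (c' : W → W → ℕ) (o : V) (e : V ≃ W),
    (∀ u v, c u v = c' (e u) (e v)) → (SPR.Recurrent c o ↔ SPR.Recurrent c' (e o))

/-- Main theorem: the glueing of two independent simple boundary uniform infinite half-planar
quadrangulations is recurrent -/
def ST_QR : Prop :=
  ∀ (Ω : Type) [MeasurableSpace Ω] (P : Measure Ω) [IsProbabilityMeasure P] (H : Ω → BGraph ℕ),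
    IsUIHPQ P H → ∀ᵐ x ∂(P.prod P), SPR.Recurrent (glueC (H x.1) (H x.2)) (Sum.inl ((H x.1).b 0))

end

end QR
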